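import Pool.Agent.R912.U11

set_option autoImplicit false
set_option linter.unusedSectionVars false

/-!
# Existence of the root decomposition and of a basis of weight vectors
-/

open Module

namespace Pool.Agent.R912

open Pool.Agent.Y102.SP

attribute [local instance 100] LieRing.ofAssociativeRing

variable {U : Type} [AddCommGroup U] [Module ℂ U] [FiniteDimensional ℂ U] [Nontrivial U]
  {L 𝔥 : Submodule ℂ (Module.End ℂ U)}
  {N k : ℕ} {a b : Fin N → Module.End ℂ U} {c : Fin N → Fin k}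

/-- The root decomposition. -/
theorem Hyp.exists_rs (h : Hyp 𝔥 L a b c) :
    ∃ (T : Type) (_ : AddCommGroup T) (_ : Module ℂ T), Nonempty (RS L T) := by
  let 𝔩 : LieSubalgebra ℂ (Module.End ℂ U) :=
    { L with lie_mem' := fun {x y} hx hy => h.Lbr x hx y hy }
  have hL : ∀ y, y ∈ 𝔩 ↔ y ∈ L := fun y => Iff.rfl
  have : LieAlgebra.IsKilling ℂ 𝔩 := h.isKilling 𝔩 hL
  obtain ⟨T, i1, i2, A, hA⟩ := exists_absRoot' 𝔩
  let ι : T →ₗ[ℂ] Module.End ℂ U := 𝔩.toSubmodule.subtype ∘ₗ A.ι
  let e : Module.Dual ℂ T → Module.End ℂ U := fun α => (A.e α).1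
  have hlie : ∀ x y : 𝔩, (⁅x, y⁆ : 𝔩).1 = x.1 * y.1 - y.1 * x.1 := fun x y => rfl
  have hspan : L ≤ LinearMap.range ι ⊔ Submodule.span ℂ (e '' A.R.Φ) := by
    intro x hx
    have h1 : (⟨x, hx⟩ : 𝔩) ∈ LinearMap.range A.ι ⊔ Submodule.span ℂ (A.e '' A.R.Φ) :=
      A.span trivial
    have h2 : x ∈ (LinearMap.range A.ι ⊔ Submodule.span ℂ (A.e '' A.R.Φ)).map
        𝔩.toSubmodule.subtype := ⟨_, h1, rfl⟩
    rw [Submodule.map_sup, Submodule.map_span, ← Set.image_comp, ← LinearMap.range_comp] at h2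
    exact h2
  refine ⟨T, i1, i2, ⟨?_⟩⟩
  exact
    { R := A.R
      cor := hA
      ι := ι
      h := A.h
      e := e
      ιmem := fun t => (A.ι t).2
      emem := fun α _ => (A.e α).2
      ene := fun α hα h0 => A.ene α hα (Subtype.ext h0)
      span := hspan
      comm := fun s t => by
        have h1 := congrArg Subtype.val (A.comm s t)
        rw [hlie] at h1
        exact sub_eq_zero.1 h1
      wt := fun α hα t => by
        have h1 := congrArg Subtype.val (A.wt α hα t)
        rw [hlie] at h1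
        exact h1
      br := fun α hα => by
        have h1 := congrArg Subtype.val (A.br α hα)
        rw [hlie] at h1
        exact h1
      hneg := A.hneg
      prh := A.prh
      rat := A.rat
      add0 := fun α hα β hβ h0 h1 => by
        have h2 := congrArg Subtype.val (A.add0 α hα β hβ h0 h1)
        rw [hlie] at h2
        exact sub_eq_zero.1 h2
      add1 := fun α hα β hβ h0 => by
        obtain ⟨c, hc⟩ := A.add1 α hα β hβ h0
        have h2 := congrArg Subtype.val hc
        rw [hlie] at h2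
        exact ⟨c, h2⟩ }

section Basis

variable {T : Type} [AddCommGroup T] [Module ℂ T] (S : RS L T) {ω : U} (hω : St a b ∅ ω)
  (hω0 : ω ≠ 0) (h : Hyp 𝔥 L a b c)
include hω h

/-- The one-particle spaces are spanned by weight vectors. -/
theorem Nσ_span (σ : Fin k) :
    Nσ a c ω σ ≤ Submodule.span ℂ {u | u ∈ Nσ a c ω σ ∧ ∃ χ, u ∈ usp S.ι χ} := by
  by_cases hN0 : Nσ a c ω σ = ⊥
  · rw [hN0]
    exact bot_le
  obtain ⟨P, hPdef⟩ : ∃ P : Submodule ℂ U,
      P = Submodule.span ℂ {u | u ∈ Nσ a c ω σ ∧ ∃ χ, u ∈ usp S.ι χ} := ⟨_, rfl⟩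
  rw [← hPdef]
  have hPN : P ≤ Nσ a c ω σ := by
    rw [hPdef, Submodule.span_le]
    rintro u ⟨hu, -⟩
    exact hu
  have hst : ∀ y ∈ L, ∀ w ∈ Nσ a c ω σ, y w ∈ Nσ a c ω σ := fun y hy =>
    glC_Nσ hω h.car (h.le (h.Lle hy)) σ
  have hι : ∀ t, ∀ u ∈ P, S.ι t u ∈ P := by
    intro t u hu
    rw [hPdef] at hu ⊢
    induction hu using Submodule.span_induction with
    | mem u hu =>
      obtain ⟨hu1, χ, hχ⟩ := hu
      rw [hχ t]
      exact Submodule.smul_mem _ _ (Submodule.subset_span ⟨hu1, χ, hχ⟩)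
    | zero => rw [map_zero]; exact Submodule.zero_mem _
    | add u v _ _ hu hv => rw [map_add]; exact Submodule.add_mem _ hu hv
    | smul r u _ hu => rw [map_smul]; exact Submodule.smul_mem _ _ hu
  have he : ∀ α ∈ S.R.Φ, ∀ u ∈ P, S.e α u ∈ P := by
    intro α hα u hu
    rw [hPdef] at hu ⊢
    induction hu using Submodule.span_induction with
    | mem u hu =>
      obtain ⟨hu1, χ, hχ⟩ := hu
      exact Submodule.subset_span ⟨hst _ (S.emem α hα) u hu1, α + χ,
        S.usp_mul (fun t => S.wt α hα t) hχ⟩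
    | zero => rw [map_zero]; exact Submodule.zero_mem _
    | add u v _ _ hu hv => rw [map_add]; exact Submodule.add_mem _ hu hv
    | smul r u _ hu => rw [map_smul]; exact Submodule.smul_mem _ _ hu
  have hL : ∀ y ∈ L, ∀ u ∈ P, y u ∈ P := by
    intro y hy u hu
    obtain ⟨y1, ⟨t, rfl⟩, z, hz, rfl⟩ := Submodule.mem_sup.1 (S.span hy)
    rw [LinearMap.add_apply]
    refine Submodule.add_mem _ (hι t u hu) ?_
    clear hy
    induction hz using Submodule.span_induction with
    | mem z hz =>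
      obtain ⟨α, hα, rfl⟩ := hz
      exact he α hα u hu
    | zero => exact Submodule.zero_mem _
    | add y z _ _ hy hz => exact Submodule.add_mem _ hy hz
    | smul c z _ hz => exact Submodule.smul_mem _ c hz
  have hP0 : P ≠ ⊥ := by
    obtain ⟨χ, u, hu, hu0, hχ⟩ := kil_eig S.ι S.comm _ (Nσ a c ω σ) le_rfl hN0
      (fun t => hst _ (S.ιmem t))
    intro hb
    have h1 : u ∈ P := by
      rw [hPdef]
      exact Submodule.subset_span ⟨hu, χ, hχ⟩
    rw [hb, Submodule.mem_bot] at h1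
    exact hu0 h1
  rw [h.irrL hω hPN hP0 hL]

include hω0 in
/-- There are enough weight vectors. -/
theorem exists_u (σ : Fin k) : ∃ f : {i // c i = σ} → U, (∀ i, f i ∈ Nσ a c ω σ) ∧
    (∀ i, ∃ χ, f i ∈ usp S.ι χ) ∧ Nσ a c ω σ ≤ Submodule.span ℂ (Set.range f) := by
  classical
  obtain ⟨s, hs1, hs2, hs3⟩ := exists_linearIndependent ℂ
    {u | u ∈ Nσ a c ω σ ∧ ∃ χ, u ∈ usp S.ι χ}
  have hspan : Submodule.span ℂ s = Nσ a c ω σ := by
    rw [hs2]
    refine le_antisymm ?_ (Nσ_span S hω h σ)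
    rw [Submodule.span_le]
    rintro u ⟨hu, -⟩
    exact hu
  -- the dimension
  have hli : LinearIndependent ℂ (fun i : {i // c i = σ} => a i.1 ω) := by
    rw [Fintype.linearIndependent_iff]
    intro g hg i
    have h1 : b i.1 (∑ j : {i // c i = σ}, g j • a j.1 ω) = g i • ω := by
      rw [map_sum, Finset.sum_eq_single i]
      · rw [map_smul, h.car.baω hω, if_pos rfl]
      · intro j _ hj
        rw [map_smul, h.car.baω hω, if_neg (fun h2 => hj (Subtype.ext h2.symm)), smul_zero]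
      · intro h2
        exact absurd (Finset.mem_univ _) h2
    rw [hg, map_zero] at h1
    exact (smul_eq_zero.1 h1.symm).resolve_right hω0
  have hrange : Submodule.span ℂ (Set.range fun i : {i // c i = σ} => a i.1 ω) = Nσ a c ω σ := by
    unfold Nσ
    congr 1
    ext w
    constructor
    · rintro ⟨i, rfl⟩
      exact ⟨i.1, i.2, rfl⟩
    · rintro ⟨i, hi, rfl⟩
      exact ⟨⟨i, hi⟩, rfl⟩
  have hfin : Finite s := hs3.finite
  have := Fintype.ofFinite s
  have hc1 : finrank ℂ (Nσ a c ω σ) = Fintype.card {i // c i = σ} := by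
    rw [← hrange, finrank_span_eq_card hli]
  have hc2 : finrank ℂ (Nσ a c ω σ) = Fintype.card s := by
    rw [← hspan]
    have h1 := finrank_span_eq_card hs3
    rw [Subtype.range_coe] at h1
    exact h1
  let e : {i // c i = σ} ≃ s := Fintype.equivOfCardEq (hc1.symm.trans hc2)
  refine ⟨fun i => (e i).1, fun i => (hs1 (e i).2).1, fun i => (hs1 (e i).2).2, ?_⟩
  rw [← hspan, Submodule.span_le]
  intro u hu
  refine Submodule.subset_span ⟨e.symm ⟨u, hu⟩, ?_⟩
  simp

include hω0 in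
/-- The matrices of the change of basis. -/
theorem exists_GH : ∃ (G H : Matrix (Fin N) (Fin N) ℂ), G * H = 1 ∧ H * G = 1 ∧
    (∀ i j, G i j ≠ 0 → c i = c j) ∧ (∀ i j, H i j ≠ 0 → c i = c j) ∧
    ∀ i, ∃ χ, ca G a i ω ∈ usp S.ι χ := by
  classical
  choose f hf1 hf2 hf3 using fun σ => exists_u S hω hω0 h σ
  obtain ⟨u, hu⟩ : ∃ u : Fin N → U, ∀ i, u i = f (c i) ⟨i, rfl⟩ := ⟨_, fun i => rfl⟩
  have hu1 : ∀ i, u i ∈ Nσ a c ω (c i) := fun i => by rw [hu]; exact hf1 _ _
  have hu2 : ∀ i, ∃ χ, u i ∈ usp S.ι χ := fun i => by rw [hu]; exact hf2 _ _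
  have hu3 : ∀ σ, Nσ a c ω σ ≤ Submodule.span ℂ {w | ∃ i, c i = σ ∧ w = u i} := by
    intro σ
    refine (hf3 σ).trans (Submodule.span_mono ?_)
    rintro _ ⟨⟨i, hi⟩, rfl⟩
    subst hi
    exact ⟨i, rfl, (hu i).symm⟩
  choose G hG using fun j i => Nσ_b hω h.car (hu1 i) j
  have hG0 : ∀ j i, G j i ≠ 0 → c j = c i := by
    intro j i hji
    by_contra hcon
    have h1 := Nσ_b0 hω h.car (hu1 i) hcon
    rw [hG] at h1
    exact hji ((smul_eq_zero.1 h1).resolve_right hω0)
  have hGu : ∀ i, u i = ∑ j, G j i • a j ω := by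
    intro i
    rw [Nσ_sum hω h.car (hu1 i)]
    refine Finset.sum_congr rfl fun j _ => ?_
    rw [hG, map_smul]
  choose H hH0 hH using fun l => span_coef (hu3 (c l) (Submodule.subset_span ⟨l, rfl, rfl⟩))
  let G' : Matrix (Fin N) (Fin N) ℂ := Matrix.of G
  let H' : Matrix (Fin N) (Fin N) ℂ := Matrix.of fun i l => H l i
  have hGH : G' * H' = 1 := by
    ext m l
    rw [Matrix.mul_apply]
    have h1 : b m (a l ω) = (∑ i, G m i * H l i) • ω := by
      conv_lhs => rw [hH l]
      rw [map_sum, Finset.sum_smul]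
      refine Finset.sum_congr rfl fun i _ => ?_
      rw [map_smul, hG, smul_smul, mul_comm]
    rw [h.car.baω hω] at h1
    change ∑ i, G m i * H l i = _
    split_ifs at h1 with hml
    · subst hml
      have h2 : (∑ i, G m i * H m i - 1) • ω = 0 := by
        rw [sub_smul, one_smul, ← h1, sub_self]
      rw [Matrix.one_apply_eq]
      exact sub_eq_zero.1 ((smul_eq_zero.1 h2).resolve_right hω0)
    · rw [Matrix.one_apply_ne hml]
      exact (smul_eq_zero.1 h1.symm).resolve_right hω0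
  refine ⟨G', H', hGH, mul_eq_one_comm.1 hGH, hG0, fun i j hij => hH0 j i hij, fun i => ?_⟩
  obtain ⟨χ, hχ⟩ := hu2 i
  refine ⟨χ, ?_⟩
  have h1 : ca G' a i ω = u i := by
    unfold ca
    rw [LinearMap.sum_apply, hGu]
    rfl
  rw [h1]
  exact hχ

end Basis

end Pool.Agent.R912
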