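import Pool.Agent.Y102.SP.Abs

set_option autoImplicit false
set_option linter.unusedSectionVars false

/-!
# Root decompositions together with the reflections of the coroots
-/

open Module

namespace Pool.Agent.R912

open Pool.Agent.Y102.SP

section Form

variable {X : Type} [AddCommGroup X] [Module ℚ X]

/-- The coroots are permuted by the reflections. -/
def Cor (R : Root X) : Prop := ∀ γ ∈ R.Φ, ∀ α ∈ R.Φ, ∀ χ,
  R.pr (α - R.pr γ α • γ) χ = R.pr α χ - R.pr α γ * R.pr γ χ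

/-- The invariant form. -/
noncomputable def rB (R : Root X) (χ ψ : X) : ℚ :=
  ∑ α ∈ R.fin.toFinset, R.pr α χ * R.pr α ψ

variable {R : Root X}

theorem rB_symm (χ ψ : X) : rB R χ ψ = rB R ψ χ :=
  Finset.sum_congr rfl fun _ _ => mul_comm _ _

theorem rB_add (χ χ' ψ : X) : rB R (χ + χ') ψ = rB R χ ψ + rB R χ' ψ := by
  unfold rB
  rw [← Finset.sum_add_distrib]
  refine Finset.sum_congr rfl fun α _ => ?_
  rw [map_add, add_mul]

theorem rB_smul (c : ℚ) (χ ψ : X) : rB R (c • χ) ψ = c * rB R χ ψ := by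
  unfold rB
  rw [Finset.mul_sum]
  refine Finset.sum_congr rfl fun α _ => ?_
  rw [map_smul, smul_eq_mul, mul_assoc]

theorem rB_add' (χ ψ ψ' : X) : rB R χ (ψ + ψ') = rB R χ ψ + rB R χ ψ' := by
  rw [rB_symm, rB_add, rB_symm, rB_symm ψ']

theorem rB_smul' (c : ℚ) (χ ψ : X) : rB R χ (c • ψ) = c * rB R χ ψ := by
  rw [rB_symm, rB_smul, rB_symm]

theorem rB_neg (χ ψ : X) : rB R (-χ) ψ = -rB R χ ψ := by
  have := rB_smul (R := R) (-1) χ ψ
  rw [neg_one_smul, neg_one_mul] at this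
  exact this

theorem rB_pos {γ : X} (hγ : γ ∈ R.Φ) : 0 < rB R γ γ := by
  unfold rB
  refine Finset.sum_pos' (fun α _ => mul_self_nonneg _) ⟨γ, R.fin.mem_toFinset.2 hγ, ?_⟩
  rw [R.two γ hγ]
  norm_num

/-- the reflection -/
def rs (R : Root X) (γ χ : X) : X := χ - R.pr γ χ • γ

theorem rs_rs {γ : X} (hγ : γ ∈ R.Φ) (χ : X) : rs R γ (rs R γ χ) = χ := by
  unfold rs
  rw [map_sub, map_smul, R.two γ hγ, smul_eq_mul, sub_smul]
  have : (R.pr γ χ * 2) • γ = R.pr γ χ • γ + R.pr γ χ • γ := by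
    rw [← add_smul]; congr 1; ring
  rw [this]
  abel

theorem rB_rs (hc : Cor R) {γ : X} (hγ : γ ∈ R.Φ) (χ ψ : X) :
    rB R (rs R γ χ) (rs R γ ψ) = rB R χ ψ := by
  unfold rB
  refine Finset.sum_nbij' (rs R γ) (rs R γ) ?_ ?_ ?_ ?_ ?_
  · intro α hα
    rw [Set.Finite.mem_toFinset] at hα ⊢
    exact R.refl γ hγ α hα
  · intro α hα
    rw [Set.Finite.mem_toFinset] at hα ⊢
    exact R.refl γ hγ α hα
  · intro α _
    exact rs_rs hγ α
  · intro α _
    exact rs_rs hγ α
  · intro α hα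
    rw [Set.Finite.mem_toFinset] at hα
    have h1 : ∀ χ, R.pr α (rs R γ χ) = R.pr (rs R γ α) χ := by
      intro χ
      unfold rs
      rw [hc γ hγ α hα, map_sub, map_smul, smul_eq_mul]
      ring
    rw [h1, h1]

/-- The coroot in terms of the form. -/
theorem rB_root (hc : Cor R) {γ : X} (hγ : γ ∈ R.Φ) (χ : X) :
    2 * rB R χ γ = R.pr γ χ * rB R γ γ := by
  have h1 := rB_rs hc hγ χ γ
  have h2 : rs R γ γ = -γ := by
    unfold rs
    rw [R.two γ hγ, two_smul]
    abel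
  have h3 : rB R (rs R γ χ) (-γ) = -rB R χ γ + R.pr γ χ * rB R γ γ := by
    rw [rB_symm, rB_neg]
    unfold rs
    rw [sub_eq_add_neg, ← neg_smul, rB_add', rB_smul', rB_symm γ χ]
    ring
  rw [h2, h3] at h1
  linarith

end Form

section Abs

open LieAlgebra LieModule LieAlgebra.IsKilling

variable {L : Type} [LieRing L] [LieAlgebra ℂ L] [FiniteDimensional ℂ L]
  [LieAlgebra.IsKilling ℂ L] {H : LieSubalgebra ℂ L} [H.IsCartanSubalgebra]

theorem abs_corefl (w w' : Weight ℂ H L) (hw : w.IsNonZero) (hw' : w'.IsNonZero) :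
    (coroot (reflectRoot w w') : H) = coroot w' - (w (coroot w')) • (coroot w : H) := by
  let i : H.root := ⟨w, Abs_root hw⟩
  let j : H.root := ⟨w', Abs_root hw'⟩
  have h1 := (rootSystem H).coroot_reflectionPerm i j
  have h2 := (rootSystem H).root_reflectionPerm i j
  have h3 : (((rootSystem H).reflectionPerm i j : H.root) : Weight ℂ H L) = reflectRoot w w' := by
    apply Abs_inj
    have h4 : Weight.toLinear ℂ H L (((rootSystem H).reflectionPerm i j : H.root) :
      Weight ℂ H L) = (rootSystem H).root ((rootSystem H).reflectionPerm i j) := rfl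
    rw [h4, h2, RootPairing.reflection_apply]
    ext x
    simp [reflectRoot, i, j]
  rw [rootSystem_coroot_apply, h3] at h1
  rw [h1, RootPairing.coreflection_apply]
  simp [i, j]

end Abs

theorem exists_absRoot' (L : Type) [LieRing L] [LieAlgebra ℂ L] [FiniteDimensional ℂ L]
    [LieAlgebra.IsKilling ℂ L] :
    ∃ (T : Type) (_ : AddCommGroup T) (_ : Module ℂ T) (A : AbsRoot L T), Cor A.R := by
  open LieAlgebra LieModule LieAlgebra.IsKilling in
  classical
  obtain ⟨y, hy⟩ := exists_isCartanSubalgebra_engel ℂ L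
  set H := LieSubalgebra.engel ℂ y with hH
  obtain ⟨r, hr⟩ := Abs_retract
  obtain ⟨ee, hee⟩ := Abs_vec (L := L) (H := H)
  have hE : ∀ w : Weight ℂ H L, w.IsNonZero → Abs_ext ee 0 (Weight.toLinear ℂ H L w) = ee w :=
    fun w hw => Abs_ext_eq ee 0 hw
  have hC : ∀ w : Weight ℂ H L, w.IsNonZero →
      Abs_ext (fun w => (coroot w : H)) 0 (Weight.toLinear ℂ H L w) = coroot w :=
    fun w hw => Abs_ext_eq (fun w => (coroot w : H)) 0 hw
  have hNZ : ∀ w : Weight ℂ H L, w.IsNonZero → (-w).IsNonZero := fun w hw => by simpa using hw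
  have hlie : ∀ w w' : Weight ℂ H L, w.IsNonZero → w'.IsNonZero →
      ⁅ee w, ee w'⁆ ∈ rootSpace H (w + w' : H → ℂ) := fun w w' hw hw' =>
    lie_mem_genWeightSpace_of_mem_genWeightSpace (hee w hw).1 (hee w' hw').1
  refine ⟨H, inferInstance, inferInstance,
    { R := Abs_R H r hr
      ι := H.toSubmodule.subtype
      h := Abs_ext (fun w => (coroot w : H)) 0
      e := Abs_ext ee 0
      inj := Subtype.val_injective
      ene := ?_
      span := ?_
      comm := ?_
      wt := ?_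
      br := ?_
      hneg := ?_
      prh := ?_
      rat := ?_
      add0 := ?_
      add1 := ?_ }, ?_⟩
  · rintro _ ⟨w, hw, rfl⟩
    rw [hE w hw]
    exact (hee w hw).2.1
  · have h1 := cartan_sup_iSup_rootSpace_eq_top (K := ℂ) (L := L) H
    intro x _
    have hx : x ∈ (H.toLieSubmodule ⊔ ⨆ α : Weight ℂ H L, ⨆ (_ : α.IsNonZero),
        rootSpace H α) := by
      rw [h1]
      exact LieSubmodule.mem_top x
    have h2 : ((H.toLieSubmodule ⊔ ⨆ α : Weight ℂ H L, ⨆ (_ : α.IsNonZero),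
        rootSpace H α : LieSubmodule ℂ H L) : Submodule ℂ L) ≤
        LinearMap.range H.toSubmodule.subtype ⊔
          Submodule.span ℂ (Abs_ext ee 0 '' (Abs_R H r hr).Φ) := by
      rw [LieSubmodule.sup_toSubmodule]
      refine sup_le ?_ ?_
      · refine le_trans ?_ le_sup_left
        intro z hz
        exact ⟨⟨z, by simpa using hz⟩, rfl⟩
      · refine le_trans ?_ le_sup_right
        rw [LieSubmodule.iSup_toSubmodule]
        refine iSup_le fun w => ?_
        rw [LieSubmodule.iSup_toSubmodule]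
        refine iSup_le fun hw => ?_
        intro x hx
        obtain ⟨c, hc⟩ := (finrank_eq_one_iff_of_nonzero' (⟨ee w, (hee w hw).1⟩ : rootSpace H w)
          (by simpa using (hee w hw).2.1)).mp (finrank_rootSpace_eq_one _ hw) ⟨x, hx⟩
        have hc' : c • ee w = x := congrArg Subtype.val hc
        rw [← hc', ← hE w hw]
        exact Submodule.smul_mem _ _ (Submodule.subset_span ⟨_, ⟨w, hw, rfl⟩, rfl⟩)
    exact h2 hx
  · intro s t
    have h5 : ⁅s, t⁆ = (0 : H) := trivial_lie_zero _ _ _ _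
    exact congrArg Subtype.val h5
  · rintro _ ⟨w, hw, rfl⟩ t
    rw [hE w hw]
    exact lie_eq_smul_of_mem_rootSpace (hee w hw).1 t
  · rintro _ ⟨w, hw, rfl⟩
    have h1 := hE (-w) (hNZ w hw)
    rw [Weight.toLinear_neg] at h1
    rw [hE w hw, hC w hw, h1]
    exact (hee w hw).2.2
  · rintro _ ⟨w, hw, rfl⟩
    have h1 := hC (-w) (hNZ w hw)
    rw [Weight.toLinear_neg] at h1
    rw [hC w hw, h1, coroot_neg]
  · rintro _ ⟨w, hw, rfl⟩ χ ⟨q, hq⟩
    change _ = ((r (χ (Abs_ext (fun w => (coroot w : H)) 0 (Weight.toLinear ℂ H L w))) : ℚ) : ℂ)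
    rw [hq, hr]
  · rintro _ ⟨w, hw, rfl⟩ _ ⟨w', hw', rfl⟩
    refine ⟨((rootSystem H).pairingIn ℤ ⟨w', Abs_root hw'⟩ ⟨w, Abs_root hw⟩ : ℤ), ?_⟩
    rw [hC w hw, Rat.cast_intCast, Abs_pair]
    rfl
  · rintro _ ⟨w, hw, rfl⟩ _ ⟨w', hw', rfl⟩ h1 h2
    rw [hE w hw, hE w' hw']
    by_contra h3
    apply h2
    have h4 := hlie w w' hw hw'
    have h5 : rootSpace H (w + w' : H → ℂ) ≠ ⊥ := by
      intro h6
      rw [h6] at h4
      exact h3 (by simpa using h4)
    let v : Weight ℂ H L := ⟨(w + w' : H → ℂ), h5⟩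
    have h6 : Weight.toLinear ℂ H L v = Weight.toLinear ℂ H L w + Weight.toLinear ℂ H L w' := by
      ext x
      rfl
    refine ⟨v, ?_, h6⟩
    rw [← Weight.coe_toLinear_ne_zero_iff, h6]
    exact h1
  · rintro _ ⟨w, hw, rfl⟩ _ ⟨w', hw', rfl⟩ ⟨v, hv, h1⟩
    rw [← h1, hE w hw, hE w' hw', hE v hv]
    have h4 := hlie w w' hw hw'
    have h5 : (v : H → ℂ) = (w + w' : H → ℂ) := by
      funext x
      exact LinearMap.congr_fun h1 x
    rw [← h5] at h4
    obtain ⟨c, hc⟩ := (finrank_eq_one_iff_of_nonzero' (⟨ee v, (hee v hv).1⟩ : rootSpace H v)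
      (by simpa using (hee v hv).2.1)).mp (finrank_rootSpace_eq_one _ hv) ⟨_, h4⟩
    exact ⟨c, (congrArg Subtype.val hc).symm⟩
  · rintro _ ⟨w, hw, rfl⟩ _ ⟨w', hw', rfl⟩ χ
    have h1 : Weight.toLinear ℂ H L w' - (Abs_R H r hr).pr (Weight.toLinear ℂ H L w)
        (Weight.toLinear ℂ H L w') • Weight.toLinear ℂ H L w =
        Weight.toLinear ℂ H L (reflectRoot w w') := by
      change Weight.toLinear ℂ H L w' - (Abs_pr r (Weight.toLinear ℂ H L w)
        (Weight.toLinear ℂ H L w')) • Weight.toLinear ℂ H L w = _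
      rw [Abs_pr_eq hr hw hw', Abs_rat_smul, Rat.cast_intCast, Abs_pair]
      ext x
      simp [reflectRoot]
    change Abs_pr r (Weight.toLinear ℂ H L w' - (Abs_R H r hr).pr (Weight.toLinear ℂ H L w)
        (Weight.toLinear ℂ H L w') • Weight.toLinear ℂ H L w) χ = _
    rw [h1]
    change r (χ (Abs_ext (fun w => (coroot w : H)) 0 (Weight.toLinear ℂ H L (reflectRoot w w')))) =
      r (χ (Abs_ext (fun w => (coroot w : H)) 0 (Weight.toLinear ℂ H L w'))) -
      r (w (Abs_ext (fun w => (coroot w : H)) 0 (Weight.toLinear ℂ H L w'))) *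
      r (χ (Abs_ext (fun w => (coroot w : H)) 0 (Weight.toLinear ℂ H L w)))
    rw [hC _ (reflectRoot_isNonZero w w' hw'), hC w hw, hC w' hw', abs_corefl w w' hw hw', map_sub,
      map_sub, map_smul]
    congr 1
    have h2 := Abs_pair (⟨w', Abs_root hw'⟩ : H.root) ⟨w, Abs_root hw⟩
    have h3 : r (w (coroot w' : H)) =
        ((rootSystem H).pairingIn ℤ ⟨w, Abs_root hw⟩ ⟨w', Abs_root hw'⟩ : ℤ) := by
      have h4 := hr ((rootSystem H).pairingIn ℤ ⟨w, Abs_root hw⟩ ⟨w', Abs_root hw'⟩ : ℤ)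
      rw [Rat.cast_intCast, h2] at h4
      exact h4
    rw [h3]
    have h5 : w (coroot w' : H) • χ (coroot w : H) =
        ((((rootSystem H).pairingIn ℤ ⟨w, Abs_root hw⟩ ⟨w', Abs_root hw'⟩ : ℤ)) : ℚ) •
          χ (coroot w : H) := by
      rw [Rat.smul_def, Rat.cast_intCast, h2, smul_eq_mul]
    rw [h5, map_smul, smul_eq_mul]

end Pool.Agent.R912
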