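import Pool.Agent.R912.U9
import Pool.Agent.Y102.SP.Kil

set_option autoImplicit false
set_option linter.unusedSectionVars false

/-!
# The vacuum and the one-particle spaces; the derived algebra is semisimple
-/

open Module

namespace Pool.Agent.R912

open Pool.Agent.Y102.SP

attribute [local instance 100] LieRing.ofAssociativeRing

variable {U : Type} [AddCommGroup U] [Module ℂ U]
  {L 𝔥 : Submodule ℂ (Module.End ℂ U)}
  {N k : ℕ} {a b : Fin N → Module.End ℂ U} {c : Fin N → Fin k}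

/-- A subalgebra `𝔥` of `⊕ gl` which generates the same algebra, with derived algebra `L`. -/
structure Hyp (𝔥 L : Submodule ℂ (Module.End ℂ U)) (a b : Fin N → Module.End ℂ U)
    (c : Fin N → Fin k) : Prop where
  car : CAR a b
  Lle : L ≤ 𝔥
  le : 𝔥 ≤ glC a b c
  dec : ∀ y ∈ 𝔥, ∃ z ∈ 𝔥, ∃ d ∈ L, y = z + d ∧ ∀ w ∈ 𝔥, z * w = w * z
  Lbr : ∀ y ∈ L, ∀ z ∈ L, y * z - z * y ∈ L
  perf : L ≤ Submodule.span ℂ {w | ∃ y ∈ L, ∃ z ∈ L, w = y * z - z * y}
  gen : ∀ i j, c i = c j → a i * b j ∈ Algebra.adjoin ℂ (𝔥 : Set (Module.End ℂ U))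

theorem comm_adj {z : Module.End ℂ U} (hz : ∀ w ∈ 𝔥, z * w = w * z) {y : Module.End ℂ U}
    (hy : y ∈ Algebra.adjoin ℂ (𝔥 : Set (Module.End ℂ U))) : z * y = y * z := by
  induction hy using Algebra.adjoin_induction with
  | mem x hx => exact hz x hx
  | algebraMap r => exact (Algebra.commutes r z).symm
  | add x y _ _ hx hy => rw [mul_add, add_mul, hx, hy]
  | mul x y _ _ hx hy => rw [← mul_assoc, hx, mul_assoc, hy, mul_assoc]

/-- the one-particle space -/
def Nσ (a : Fin N → Module.End ℂ U) (c : Fin N → Fin k) (ω : U) (σ : Fin k) : Submodule ℂ U :=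
  Submodule.span ℂ {w | ∃ i, c i = σ ∧ w = a i ω}

section Vac

variable {ω : U} (hω : St a b ∅ ω)

include hω in
theorem bω (i : Fin N) : b i ω = 0 := hω.2 i (Finset.notMem_empty i)

section

variable (hcar : CAR a b)
include hcar hω

theorem CAR.aba (i j l : Fin N) : a i (b j (a l ω)) = if j = l then a i ω else 0 := by
  split_ifs with h1
  · rw [h1, hcar.bav, bω hω, map_zero, sub_zero]
  · rw [hcar.bav' (Ne.symm h1), bω hω, map_zero, neg_zero, map_zero]

theorem CAR.baω (j l : Fin N) : b j (a l ω) = if j = l then ω else 0 := by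
  split_ifs with h1
  · rw [h1, hcar.bav, bω hω, map_zero, sub_zero]
  · rw [hcar.bav' (Ne.symm h1), bω hω, map_zero, neg_zero]

theorem glC_ω {y : Module.End ℂ U} (hy : y ∈ glC a b c) : ∃ t : ℂ, y ω = t • ω := by
  induction hy using Submodule.span_induction with
  | mem y hy =>
    obtain ⟨i, j, -, rfl⟩ := hy
    refine ⟨if i = j then -2⁻¹ else 0, ?_⟩
    rw [gij_apply, bω hω, map_zero]
    split_ifs
    · rw [zero_sub, neg_smul]
    · rw [sub_zero, zero_smul]
  | zero => exact ⟨0, by rw [zero_smul]; rfl⟩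
  | add y z _ _ hy hz =>
    obtain ⟨s, hs⟩ := hy
    obtain ⟨t, ht⟩ := hz
    exact ⟨s + t, by rw [LinearMap.add_apply, hs, ht, add_smul]⟩
  | smul r y _ hy =>
    obtain ⟨s, hs⟩ := hy
    exact ⟨r * s, by rw [LinearMap.smul_apply, hs, smul_smul]⟩

theorem glC_Nσ {y : Module.End ℂ U} (hy : y ∈ glC a b c) (σ : Fin k) :
    ∀ w ∈ Nσ a c ω σ, y w ∈ Nσ a c ω σ := by
  induction hy using Submodule.span_induction with
  | mem y hy =>
    obtain ⟨i, j, hij, rfl⟩ := hy
    have h1 : Nσ a c ω σ ≤ (Nσ a c ω σ).comap (gij a b i j) := by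
      conv_lhs => unfold Nσ
      rw [Submodule.span_le]
      rintro _ ⟨l, hl, rfl⟩
      rw [SetLike.mem_coe, Submodule.mem_comap, gij_apply, hcar.aba hω]
      refine Submodule.sub_mem _ ?_ ?_
      · split_ifs with h1
        · exact Submodule.subset_span ⟨i, by rw [hij, h1, hl], rfl⟩
        · exact Submodule.zero_mem _
      · split_ifs
        · exact Submodule.smul_mem _ _ (Submodule.subset_span ⟨l, hl, rfl⟩)
        · exact Submodule.zero_mem _
    exact h1
  | zero => intro w _; exact Submodule.zero_mem _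
  | add y z _ _ hy hz => intro w hw; exact Submodule.add_mem _ (hy w hw) (hz w hw)
  | smul r y _ hy => intro w hw; exact Submodule.smul_mem _ _ (hy w hw)

theorem Nσ_b {σ : Fin k} {w : U} (hw : w ∈ Nσ a c ω σ) (j : Fin N) : ∃ t : ℂ, b j w = t • ω := by
  induction hw using Submodule.span_induction with
  | mem w hw =>
    obtain ⟨i, -, rfl⟩ := hw
    rw [hcar.baω hω]
    split_ifs
    · exact ⟨1, (one_smul _ _).symm⟩
    · exact ⟨0, (zero_smul _ _).symm⟩
  | zero => exact ⟨0, by rw [map_zero, zero_smul]⟩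
  | add u v _ _ hu hv =>
    obtain ⟨s, hs⟩ := hu
    obtain ⟨t, ht⟩ := hv
    exact ⟨s + t, by rw [map_add, hs, ht, add_smul]⟩
  | smul r u _ hu =>
    obtain ⟨s, hs⟩ := hu
    exact ⟨r * s, by rw [map_smul, hs, smul_smul]⟩

theorem Nσ_b0 {σ : Fin k} {w : U} (hw : w ∈ Nσ a c ω σ) {j : Fin N} (hj : c j ≠ σ) :
    b j w = 0 := by
  induction hw using Submodule.span_induction with
  | mem w hw =>
    obtain ⟨i, hi, rfl⟩ := hw
    rw [hcar.baω hω, if_neg]
    rintro rfl
    exact hj hi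
  | zero => rw [map_zero]
  | add u v _ _ hu hv => rw [map_add, hu, hv, add_zero]
  | smul r u _ hu => rw [map_smul, hu, smul_zero]

theorem Nσ_sum {σ : Fin k} {w : U} (hw : w ∈ Nσ a c ω σ) : w = ∑ i, a i (b i w) := by
  induction hw using Submodule.span_induction with
  | mem w hw =>
    obtain ⟨i, hi, rfl⟩ := hw
    rw [Finset.sum_eq_single i]
    · rw [hcar.aba hω, if_pos rfl]
    · intro j _ hj
      rw [hcar.aba hω, if_neg hj]
    · intro h
      exact absurd (Finset.mem_univ _) h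
  | zero => simp
  | add u v _ _ hu hv =>
    conv_lhs => rw [hu, hv]
    rw [← Finset.sum_add_distrib]
    refine Finset.sum_congr rfl fun i _ => ?_
    rw [map_add, map_add]
  | smul r u _ hu =>
    conv_lhs => rw [hu]
    rw [Finset.smul_sum]
    refine Finset.sum_congr rfl fun i _ => ?_
    rw [map_smul, map_smul]

theorem CAR.faithful (hω0 : ω ≠ 0) {y : Module.End ℂ U} (hy : y ∈ glC a b c) (h0 : y ω = 0)
    (h1 : ∀ j, y (a j ω) = 0) : y = 0 := by
  classical
  obtain ⟨M, -, hM⟩ := glC_coef hy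
  have e1 : ∀ v, y v = ∑ p, ∑ q, M p q • gij a b p q v := by
    intro v
    conv_lhs => rw [hM]
    rw [LinearMap.sum_apply]
    refine Finset.sum_congr rfl fun i _ => ?_
    rw [LinearMap.sum_apply]
    rfl
  have e2 : (∑ p, M p p) • ω = 0 := by
    have e3 : y ω = (-2⁻¹ : ℂ) • (∑ p, M p p) • ω := by
      rw [e1, Finset.sum_smul, Finset.smul_sum]
      refine Finset.sum_congr rfl fun p _ => ?_
      rw [Finset.sum_eq_single p]
      · rw [gij_apply, if_pos rfl, bω hω, map_zero, zero_sub, smul_neg, neg_smul, smul_comm]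
      · intro q _ hq
        rw [gij_apply, if_neg (Ne.symm hq), bω hω, map_zero, sub_zero, smul_zero]
      · intro h
        exact absurd (Finset.mem_univ _) h
    rw [h0] at e3
    rcases smul_eq_zero.1 e3.symm with e4 | e4
    · norm_num at e4
    · exact e4
  have e5 : ∑ p, M p p = 0 := (smul_eq_zero.1 e2).resolve_right hω0
  have e6 : ∀ j, y (a j ω) = ∑ p, M p j • a p ω := by
    intro j
    rw [e1]
    have e7 : ∀ p, ∑ q, M p q • gij a b p q (a j ω) = M p j • a p ω - M p p • (2⁻¹ : ℂ) • a j ω := by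
      intro p
      have e8 : ∀ q, M p q • gij a b p q (a j ω) = (if q = j then M p q • a p ω else 0) -
          if q = p then M p q • (2⁻¹ : ℂ) • a j ω else 0 := by
        intro q
        rw [gij_apply, hcar.aba hω, smul_sub]
        congr 1
        · split_ifs
          · rfl
          · rw [smul_zero]
        · by_cases hpq : p = q
          · rw [if_pos hpq, if_pos hpq.symm]
          · rw [if_neg hpq, if_neg (Ne.symm hpq), smul_zero]
      rw [Finset.sum_congr rfl fun q _ => e8 q, Finset.sum_sub_distrib, Finset.sum_ite_eq',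
        Finset.sum_ite_eq', if_pos (Finset.mem_univ _), if_pos (Finset.mem_univ _)]
    rw [Finset.sum_congr rfl fun p _ => e7 p, Finset.sum_sub_distrib, ← Finset.sum_smul, e5,
      zero_smul, sub_zero]
  have e9 : ∀ i j, M i j = 0 := by
    intro i j
    have e10 : b i (y (a j ω)) = M i j • ω := by
      rw [e6, map_sum, Finset.sum_eq_single i]
      · rw [map_smul, hcar.baω hω, if_pos rfl]
      · intro p _ hp
        rw [map_smul, hcar.baω hω, if_neg (Ne.symm hp), smul_zero]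
      · intro h
        exact absurd (Finset.mem_univ _) h
    rw [h1, map_zero] at e10
    exact (smul_eq_zero.1 e10.symm).resolve_right hω0
  rw [hM]
  refine Finset.sum_eq_zero fun i _ => Finset.sum_eq_zero fun j _ => ?_
  rw [e9, zero_smul]

end

namespace Hyp

variable (h : Hyp 𝔥 L a b c)
include h hω

theorem Lω {y : Module.End ℂ U} (hy : y ∈ L) : y ω = 0 := by
  have h1 := h.perf hy
  clear hy
  induction h1 using Submodule.span_induction with
  | mem y hy =>
    obtain ⟨u, hu, w, hw, rfl⟩ := hy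
    obtain ⟨s, hs⟩ := glC_ω hω h.car (h.le (h.Lle hu))
    obtain ⟨t, ht⟩ := glC_ω hω h.car (h.le (h.Lle hw))
    rw [LinearMap.sub_apply, Module.End.mul_apply, Module.End.mul_apply, hs, ht, map_smul,
      map_smul, hs, ht, smul_smul, smul_smul, mul_comm, sub_self]
  | zero => rfl
  | add y z _ _ hy hz => rw [LinearMap.add_apply, hy, hz, add_zero]
  | smul r y _ hy => rw [LinearMap.smul_apply, hy, smul_zero]

/-- The one-particle spaces are irreducible. -/
theorem irr {σ : Fin k} {P : Submodule ℂ U} (hP : P ≤ Nσ a c ω σ) (hP0 : P ≠ ⊥)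
    (hst : ∀ y ∈ 𝔥, ∀ w ∈ P, y w ∈ P) : P = Nσ a c ω σ := by
  obtain ⟨w, hw, hw0⟩ := (Submodule.ne_bot_iff P).1 hP0
  obtain ⟨j, hj⟩ : ∃ j, b j w ≠ 0 := by
    by_contra hcon
    push Not at hcon
    apply hw0
    rw [Nσ_sum hω h.car (hP hw)]
    exact Finset.sum_eq_zero fun i _ => by rw [hcon, map_zero]
  have hcj : c j = σ := by
    by_contra h1
    exact hj (Nσ_b0 hω h.car (hP hw) h1)
  obtain ⟨t, ht⟩ := Nσ_b hω h.car (hP hw) j
  have ht0 : t ≠ 0 := by
    rintro rfl
    rw [zero_smul] at ht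
    exact hj ht
  refine le_antisymm hP ?_
  unfold Nσ
  rw [Submodule.span_le]
  rintro _ ⟨i, hi, rfl⟩
  have h1 := kil_adj (𝔥 : Set (Module.End ℂ U)) P hst _ (h.gen i j (hi.trans hcj.symm)) w hw
  rw [Module.End.mul_apply, ht, map_smul] at h1
  have h2 := P.smul_mem t⁻¹ h1
  rw [smul_smul, inv_mul_cancel₀ ht0, one_smul] at h2
  exact h2

/-- The centre acts by scalars on the one-particle spaces. -/
theorem cen_Nσ {z : Module.End ℂ U} (hz : z ∈ 𝔥) (hzc : ∀ w ∈ 𝔥, z * w = w * z) (σ : Fin k) :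
    ∃ s : ℂ, ∀ w ∈ Nσ a c ω σ, z w = s • w := by
  by_cases hσ : ∃ l, c l = σ
  · obtain ⟨l, hl⟩ := hσ
    have h1 : z (a l ω) ∈ Nσ a c ω σ :=
      glC_Nσ hω h.car (h.le hz) σ _ (Submodule.subset_span ⟨l, hl, rfl⟩)
    obtain ⟨t, ht⟩ := Nσ_b hω h.car h1 l
    refine ⟨t, fun w hw => ?_⟩
    induction hw using Submodule.span_induction with
    | mem w hw =>
      obtain ⟨i, hi, rfl⟩ := hw
      have h2 := LinearMap.congr_fun (comm_adj hzc (h.gen i l (hi.trans hl.symm))) (a l ω)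
      rw [Module.End.mul_apply, Module.End.mul_apply, Module.End.mul_apply, Module.End.mul_apply,
        h.car.aba hω, if_pos rfl, ht, map_smul] at h2
      exact h2
    | zero => rw [map_zero, smul_zero]
    | add u v _ _ hu hv => rw [map_add, hu, hv, smul_add]
    | smul r u _ hu => rw [map_smul, hu, smul_comm]
  · refine ⟨0, fun w hw => ?_⟩
    have h1 : Nσ a c ω σ = ⊥ := by
      unfold Nσ
      rw [Submodule.span_eq_bot]
      rintro _ ⟨i, hi, -⟩
      exact absurd ⟨i, hi⟩ hσ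
    rw [h1, Submodule.mem_bot] at hw
    rw [hw, map_zero, smul_zero]

/-- Irreducibility for the derived algebra. -/
theorem irrL {σ : Fin k} {P : Submodule ℂ U} (hP : P ≤ Nσ a c ω σ) (hP0 : P ≠ ⊥)
    (hst : ∀ y ∈ L, ∀ w ∈ P, y w ∈ P) : P = Nσ a c ω σ := by
  refine h.irr hω hP hP0 fun y hy w hw => ?_
  obtain ⟨z, hz, d, hd, rfl, hzc⟩ := h.dec y hy
  obtain ⟨s, hs⟩ := h.cen_Nσ hω hz hzc σ
  rw [LinearMap.add_apply, hs w (hP hw)]
  exact P.add_mem (P.smul_mem _ hw) (hst d hd w hw)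

end Hyp

end Vac

variable [FiniteDimensional ℂ U] [Nontrivial U]

open LieAlgebra LieModule in
/-- The Lie algebra is semisimple. -/
theorem Hyp.isKilling (h : Hyp 𝔥 L a b c) (𝔩 : LieSubalgebra ℂ (Module.End ℂ U))
    (hL : ∀ y, y ∈ 𝔩 ↔ y ∈ L) : LieAlgebra.IsKilling ℂ 𝔩 := by
  obtain ⟨ω, hω0, hω⟩ := h.car.exists_vac
  have key : ∀ y ∈ radical ℂ 𝔩, ∀ σ, ∀ w ∈ Nσ a c ω σ, y.1 w = 0 := by
    intro y hy σ
    by_cases hN0 : Nσ a c ω σ = ⊥
    · intro w hw
      rw [hN0, Submodule.mem_bot] at hw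
      rw [hw, map_zero]
    let M : LieSubmodule ℂ 𝔩 U := { Nσ a c ω σ with
      lie_mem := fun {y u} hu => glC_Nσ hω h.car (h.le (h.Lle ((hL _).1 y.2))) σ u hu }
    have : Nontrivial M := by
      obtain ⟨u, hu, hu0⟩ := (Submodule.ne_bot_iff _).1 hN0
      exact nontrivial_of_ne (⟨u, hu⟩ : M) 0 (fun h => hu0 (congrArg Subtype.val h))
    obtain ⟨χ, hχ⟩ := exists_nontrivial_weightSpace_of_isSolvable ℂ (radical ℂ 𝔩) M
    let P' : LieSubmodule ℂ 𝔩 M := weightSpaceOfIsLieTower ℂ M χ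
    have hP' : ∀ v : M, v ∈ P' ↔ ∀ y : radical ℂ 𝔩, ⁅y, v⁆ = χ y • v := fun v =>
      mem_weightSpace _ v
    let P : Submodule ℂ U := P'.toSubmodule.map (M.incl : M →ₗ[ℂ] U)
    have hPN : P ≤ Nσ a c ω σ := by
      rintro _ ⟨v, _, rfl⟩
      exact v.2
    have hPL : ∀ z ∈ L, ∀ u ∈ P, z u ∈ P := by
      rintro z hz _ ⟨v, hv, rfl⟩
      exact ⟨⁅(⟨z, (hL z).2 hz⟩ : 𝔩), v⁆, P'.lie_mem hv, rfl⟩
    have hP0 : P ≠ ⊥ := by
      obtain ⟨v, hv⟩ := exists_ne (0 : weightSpace M χ)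
      intro hb
      have h1 : v.1.1 ∈ P := ⟨v.1, v.2, rfl⟩
      rw [hb, Submodule.mem_bot] at h1
      exact hv (Subtype.ext (Subtype.ext h1))
    have hPeq := h.irrL hω hPN hP0 hPL
    have hact : ∀ w ∈ Nσ a c ω σ, y.1 w = χ ⟨y, hy⟩ • w := by
      intro w hw
      rw [← hPeq] at hw
      obtain ⟨v, hv, rfl⟩ := hw
      exact congrArg Subtype.val ((hP' v).1 hv ⟨y, hy⟩)
    -- the trace
    have htr : ∀ z : 𝔩, LinearMap.trace ℂ M (toEnd ℂ 𝔩 M z) = 0 := by
      have h1 : ∀ z ∈ Submodule.span ℂ {w | ∃ y ∈ L, ∃ z ∈ L, w = y * z - z * y},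
          ∀ hz : z ∈ 𝔩, LinearMap.trace ℂ M (toEnd ℂ 𝔩 M ⟨z, hz⟩) = 0 := by
        have hle : Submodule.span ℂ {w | ∃ y ∈ L, ∃ z ∈ L, w = y * z - z * y} ≤ L := by
          rw [Submodule.span_le]
          rintro _ ⟨y, hy, z, hz, rfl⟩
          exact h.Lbr y hy z hz
        intro z hz
        induction hz using Submodule.span_induction with
        | mem z hz =>
          intro hz'
          obtain ⟨u, hu, v, hv, rfl⟩ := hz
          have h2 : (⟨u * v - v * u, hz'⟩ : 𝔩) = ⁅(⟨u, (hL u).2 hu⟩ : 𝔩), ⟨v, (hL v).2 hv⟩⁆ := rfl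
          rw [h2, LieHom.map_lie, Ring.lie_def, map_sub, LinearMap.trace_mul_comm, sub_self]
        | zero =>
          intro hz'
          have h2 : (⟨0, hz'⟩ : 𝔩) = 0 := rfl
          rw [h2, map_zero, map_zero]
        | add u v hu' hv' hu hv =>
          intro hz'
          have h2 : (⟨u + v, hz'⟩ : 𝔩) = ⟨u, (hL u).2 (hle hu')⟩ + ⟨v, (hL v).2 (hle hv')⟩ := rfl
          rw [h2, map_add, map_add, hu, hv, add_zero]
        | smul r u hu' hu =>
          intro hz'
          have h2 : (⟨r • u, hz'⟩ : 𝔩) = r • ⟨u, (hL u).2 (hle hu')⟩ := rfl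
          rw [h2, map_smul, map_smul, hu, smul_zero]
      exact fun z => h1 z.1 (h.perf ((hL _).1 z.2)) z.2
    have h3 : toEnd ℂ 𝔩 M y = χ ⟨y, hy⟩ • (LinearMap.id : M →ₗ[ℂ] M) := by
      refine LinearMap.ext fun u => Subtype.ext ?_
      exact hact u.1 u.2
    have h4 := htr y
    rw [h3, map_smul, LinearMap.trace_id, smul_eq_mul, mul_eq_zero] at h4
    rcases h4 with h4 | h4
    · intro w hw
      rw [hact w hw, h4, zero_smul]
    · exfalso
      have h5 : finrank ℂ M = 0 := by exact_mod_cast h4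
      exact (finrank_pos (R := ℂ) (M := M)).ne' h5
  have : HasTrivialRadical ℂ 𝔩 := by
    constructor
    rw [eq_bot_iff]
    intro y hy
    have hy' : y.1 ∈ L := (hL _).1 y.2
    have h1 : y.1 = 0 := h.car.faithful hω hω0 (h.le (h.Lle hy')) (h.Lω hω hy') fun j =>
      key y hy (c j) _ (Submodule.subset_span ⟨j, rfl, rfl⟩)
    rw [LieSubmodule.mem_bot]
    exact Subtype.ext h1
  infer_instance

end Pool.Agent.R912
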