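import Pool.Agent.R912.U13

set_option autoImplicit false
set_option linter.unusedSectionVars false

/-!
# One colour: the centre
-/

open Module

namespace Pool.Agent.R912

open Pool.Agent.Y102.SP

variable {U : Type} [AddCommGroup U] [Module ℂ U]
  {L 𝔥 : Submodule ℂ (Module.End ℂ U)}
  {N k : ℕ} {a b : Fin N → Module.End ℂ U} {c : Fin N → Fin k}

/-- products of creation operators -/
noncomputable def lp (a : Fin N → Module.End ℂ U) (l : List (Fin N)) : Module.End ℂ U :=
  (l.map a).prod

theorem lp_cons (x : Fin N) (l : List (Fin N)) : lp a (x :: l) = a x * lp a l := by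
  unfold lp
  rw [List.map_cons, List.prod_cons]

section

variable (h : CAR a b)
include h

theorem CAR.sq (i : Fin N) : a i * a i = 0 := LinearMap.ext fun v => h.aa0 i v

theorem CAR.lp_mem {i : Fin N} {l : List (Fin N)} (hi : i ∈ l) : a i * lp a l = 0 := by
  induction l with
  | nil => exact absurd hi List.not_mem_nil
  | cons x l ih =>
    rw [lp_cons, ← mul_assoc]
    by_cases hx : i = x
    · rw [← hx, h.sq, zero_mul]
    · rw [h.aa i x, neg_mul, mul_assoc, ih ((List.mem_cons.1 hi).resolve_left hx), mul_zero,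
        neg_zero]

theorem CAR.lp_br_cons (i j x : Fin N) (l : List (Fin N)) :
    gij a b i j * lp a (x :: l) - lp a (x :: l) * gij a b i j =
      (if x = j then a i else 0) * lp a l + a x * (gij a b i j * lp a l - lp a l * gij a b i j) := by
  rw [← h.br_ga i j x, lp_cons]
  noncomm_ring

theorem CAR.lp_br0 (i j : Fin N) (l : List (Fin N)) :
    a i * (gij a b i j * lp a l - lp a l * gij a b i j) = 0 := by
  induction l with
  | nil =>
    have h1 : lp a [] = 1 := by simp [lp]
    rw [h1, mul_one, one_mul, sub_self, mul_zero]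
  | cons x l ih =>
    rw [h.lp_br_cons, mul_add, ← mul_assoc, ← mul_assoc, h.aa i x, neg_mul, mul_assoc (a x), ih,
      mul_zero, neg_zero, add_zero]
    split_ifs
    · rw [h.sq, zero_mul]
    · rw [mul_zero, zero_mul]

theorem CAR.lp_br1 {i j : Fin N} (hij : i ≠ j) {l : List (Fin N)} (hi : i ∈ l) :
    gij a b i j * lp a l - lp a l * gij a b i j = 0 := by
  induction l with
  | nil => exact absurd hi List.not_mem_nil
  | cons x l ih =>
    rw [h.lp_br_cons]
    by_cases hil : i ∈ l
    · rw [ih hil, mul_zero, add_zero]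
      split_ifs
      · exact h.lp_mem hil
      · rw [zero_mul]
    · have hx : i = x := (List.mem_cons.1 hi).resolve_right hil
      subst hx
      rw [if_neg hij, zero_mul, zero_add]
      exact h.lp_br0 i j l

theorem CAR.lp_br2 (j : Fin N) (l : List (Fin N)) :
    gij a b j j * lp a l - lp a l * gij a b j j = ((l.count j : ℕ) : ℂ) • lp a l := by
  induction l with
  | nil =>
    have h1 : lp a [] = 1 := by simp [lp]
    rw [h1, mul_one, one_mul, sub_self, List.count_nil, Nat.cast_zero, zero_smul]
  | cons x l ih =>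
    rw [h.lp_br_cons, ih, mul_smul_comm, List.count_cons, lp_cons]
    by_cases hx : x = j
    · rw [hx, if_pos rfl, if_pos (beq_self_eq_true j)]
      push_cast
      rw [add_smul, one_smul, add_comm]
    · rw [if_neg hx, zero_mul, zero_add, if_neg (by simpa using hx), add_zero]

theorem CAR.lp_st {ω : U} (hω : St a b ∅ ω) (hω0 : ω ≠ 0) (l : List (Fin N)) (hl : l.Nodup) :
    lp a l ω ≠ 0 ∧ St a b l.toFinset (lp a l ω) := by
  classical
  induction l with
  | nil =>
    have h1 : lp a [] = 1 := by simp [lp]
    rw [h1, Module.End.one_apply]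
    exact ⟨hω0, by simpa using hω⟩
  | cons j l ih =>
    obtain ⟨hj, hl'⟩ := List.nodup_cons.1 hl
    obtain ⟨hv, hF⟩ := ih hl'
    rw [lp_cons, Module.End.mul_apply, List.toFinset_cons]
    have hj' : j ∉ l.toFinset := fun h1 => hj (List.mem_toFinset.1 h1)
    refine ⟨fun h0 => hv ?_, fun i hi => ?_, fun i hi => ?_⟩
    · have h1 := h.bav j (lp a l ω)
      rw [h0, map_zero, hF.2 j hj', map_zero, sub_zero] at h1
      exact h1.symm
    · rcases Finset.mem_insert.1 hi with rfl | hi
      · exact h.aa0 _ _
      · rw [h.aav, hF.1 i hi, map_zero, neg_zero]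
    · rw [Finset.mem_insert, not_or] at hi
      rw [h.bav' (Ne.symm hi.1), hF.2 i hi.2, map_zero, neg_zero]

/-- The centre for one colour. -/
theorem CAR.one_colour [Nontrivial U] (hc : ∀ i j, c i = c j) (hle : 𝔥 ≤ glC a b c)
    (h1 : ∀ p q, c p = c q → p ≠ q → a p * b q ∈ 𝔥)
    (h2 : ∀ p q, c p = c q → a p * b p - a q * b q ∈ 𝔥)
    (hcom : ∀ Z : Module.End ℂ U, (∀ X ∈ 𝔥, Z * X = X * Z) → ∀ X ∈ glC a b c, Z * X = X * Z) :
    glC a b c ≤ 𝔥 := by
  classical
  by_cases hN : ∃ p0 : Fin N, True
  · obtain ⟨p0, -⟩ := hN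
    obtain ⟨ω, hω0, hω⟩ := h.exists_vac
    obtain ⟨Z, hZ⟩ : ∃ Z, Z = lp a (List.finRange N) := ⟨_, rfl⟩
    have hZ0 : Z ≠ 0 := by
      intro h0
      have h3 := (h.lp_st hω hω0 (List.finRange N) (List.nodup_finRange N)).1
      rw [← hZ, h0] at h3
      exact h3 rfl
    have hbr : ∀ i j, gij a b i j * Z - Z * gij a b i j = if i = j then Z else 0 := by
      intro i j
      rw [hZ]
      split_ifs with hij
      · rw [hij, h.lp_br2, List.count_eq_one_of_mem (List.nodup_finRange N)
          (List.mem_finRange j), Nat.cast_one, one_smul]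
      · exact h.lp_br1 hij (List.mem_finRange i)
    -- an element of 𝔥 which does not commute with Z
    obtain ⟨Y, hY, hYZ⟩ : ∃ Y ∈ 𝔥, Z * Y ≠ Y * Z := by
      by_contra hcon
      push Not at hcon
      have h3 := hcom Z hcon (gij a b p0 p0) (Submodule.subset_span ⟨p0, p0, rfl, rfl⟩)
      have h4 := hbr p0 p0
      rw [if_pos rfl, h3, sub_self] at h4
      exact hZ0 h4.symm
    obtain ⟨M, hM, hMY⟩ := glC_coef (hle hY)
    have htr : Y * Z - Z * Y = (∑ i, M i i) • Z := by
      have h3 : Y * Z - Z * Y = ∑ i, ∑ j, M i j • (gij a b i j * Z - Z * gij a b i j) := by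
        conv_lhs => rw [hMY]
        rw [Finset.sum_mul, Finset.mul_sum, ← Finset.sum_sub_distrib]
        refine Finset.sum_congr rfl fun i _ => ?_
        rw [Finset.sum_mul, Finset.mul_sum, ← Finset.sum_sub_distrib]
        refine Finset.sum_congr rfl fun j _ => ?_
        rw [smul_mul_assoc, mul_smul_comm, ← smul_sub]
      rw [h3, Finset.sum_smul]
      refine Finset.sum_congr rfl fun i _ => ?_
      rw [Finset.sum_eq_single i]
      · rw [hbr, if_pos rfl]
      · intro j _ hj
        rw [hbr, if_neg (Ne.symm hj), smul_zero]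
      · intro h2
        exact absurd (Finset.mem_univ _) h2
    have htr0 : ∑ i, M i i ≠ 0 := by
      intro h0
      rw [h0, zero_smul, sub_eq_zero] at htr
      exact hYZ htr.symm
    have hp0 : gij a b p0 p0 ∈ 𝔥 := by
      have h3 := trace_zero_mem (c := c) h1 h2 (p := p0)
        (C := fun i j => M i j - if i = p0 ∧ j = p0 then ∑ l, M l l else 0)
        (fun i j _ => ⟨hc _ _, hc _ _⟩) (by
          have h4 : ∀ i, (M i i - if i = p0 ∧ i = p0 then ∑ l, M l l else 0) =
              M i i - if i = p0 then ∑ l, M l l else 0 := by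
            intro i
            simp only [and_self]
          rw [Finset.sum_congr rfl fun i _ => h4 i, Finset.sum_sub_distrib, Finset.sum_ite_eq',
            if_pos (Finset.mem_univ _), sub_self])
      have h5 : ∑ i, ∑ j, (M i j - if i = p0 ∧ j = p0 then ∑ l, M l l else 0) • gij a b i j =
          Y - (∑ l, M l l) • gij a b p0 p0 := by
        have h6 : ∑ i, ∑ j, (if i = p0 ∧ j = p0 then ∑ l, M l l else 0) • gij a b i j =
            (∑ l, M l l) • gij a b p0 p0 := by
          rw [Finset.sum_eq_single p0, Finset.sum_eq_single p0]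
          · rw [if_pos ⟨rfl, rfl⟩]
          · intro j _ hj
            rw [if_neg (fun h2 => hj h2.2), zero_smul]
          · intro h2
            exact absurd (Finset.mem_univ _) h2
          · intro i _ hi
            refine Finset.sum_eq_zero fun j _ => ?_
            rw [if_neg (fun h2 => hi h2.1), zero_smul]
          · intro h2
            exact absurd (Finset.mem_univ _) h2
        rw [← h6, hMY, ← Finset.sum_sub_distrib]
        refine Finset.sum_congr rfl fun i _ => ?_
        rw [← Finset.sum_sub_distrib]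
        exact Finset.sum_congr rfl fun j _ => sub_smul _ _ _
      rw [h5] at h3
      have h7 := 𝔥.sub_mem hY h3
      rw [sub_sub_cancel] at h7
      have h8 := 𝔥.smul_mem (∑ l, M l l)⁻¹ h7
      rw [smul_smul, inv_mul_cancel₀ htr0, one_smul] at h8
      exact h8
    conv_lhs => unfold glC
    rw [Submodule.span_le]
    rintro _ ⟨i, j, hij, rfl⟩
    by_cases hij' : i = j
    · subst hij'
      have h3 := 𝔥.add_mem (h2 i p0 (hc _ _)) hp0
      have h4 : a i * b i - a p0 * b p0 + gij a b p0 p0 = gij a b i i := by
        unfold gij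
        rw [if_pos rfl, if_pos rfl]
        abel
      rw [h4] at h3
      exact h3
    · have h4 : gij a b i j = a i * b j := by
        unfold gij
        rw [if_neg hij', sub_zero]
      rw [SetLike.mem_coe, h4]
      exact h1 i j hij hij'
  · conv_lhs => unfold glC
    rw [Submodule.span_le]
    rintro _ ⟨i, j, -, -⟩
    exact absurd ⟨i, trivial⟩ hN

end

end Pool.Agent.R912
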