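import Pool.Agent.R912.U1
import Pool.Agent.Y102.SP.Wt

set_option autoImplicit false
set_option linter.unusedSectionVars false

/-!
# Lie algebras of endomorphisms with a root decomposition: weights and words
-/

open Module

namespace Pool.Agent.R912

open Pool.Agent.Y102.SP

attribute [local instance 100] LieRing.ofAssociativeRing

/-- A Lie algebra of endomorphisms with a root decomposition. -/
structure RS {U : Type} [AddCommGroup U] [Module ℂ U] (L : Submodule ℂ (Module.End ℂ U)) (T : Type)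
    [AddCommGroup T] [Module ℂ T] where
  R : Root (Module.Dual ℂ T)
  cor : Cor R
  ι : T →ₗ[ℂ] Module.End ℂ U
  h : Module.Dual ℂ T → T
  e : Module.Dual ℂ T → Module.End ℂ U
  ιmem : ∀ t, ι t ∈ L
  emem : ∀ α ∈ R.Φ, e α ∈ L
  ene : ∀ α ∈ R.Φ, e α ≠ 0
  span : L ≤ LinearMap.range ι ⊔ Submodule.span ℂ (e '' R.Φ)
  comm : ∀ s t, ι s * ι t = ι t * ι s
  wt : ∀ α ∈ R.Φ, ∀ t, ι t * e α - e α * ι t = α t • e α
  br : ∀ α ∈ R.Φ, e α * e (-α) - e (-α) * e α = ι (h α)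
  hneg : ∀ α ∈ R.Φ, h (-α) = -h α
  prh : ∀ α ∈ R.Φ, ∀ χ : Module.Dual ℂ T, (∃ q : ℚ, χ (h α) = q) → χ (h α) = (R.pr α χ : ℂ)
  rat : ∀ α ∈ R.Φ, ∀ β ∈ R.Φ, ∃ q : ℚ, β (h α) = q
  add0 : ∀ α ∈ R.Φ, ∀ β ∈ R.Φ, α + β ≠ 0 → α + β ∉ R.Φ → e α * e β = e β * e α
  add1 : ∀ α ∈ R.Φ, ∀ β ∈ R.Φ, α + β ∈ R.Φ → ∃ c : ℂ, e α * e β - e β * e α = c • e (α + β)

variable {U : Type} [AddCommGroup U] [Module ℂ U] [FiniteDimensional ℂ U]
  {T : Type} [AddCommGroup T] [Module ℂ T] {L : Submodule ℂ (Module.End ℂ U)} (S : RS L T)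

namespace RS

/-- The components of weight `χ` of a space of endomorphisms. -/
def vw (V : Submodule ℂ (Module.End ℂ U)) (χ : Module.Dual ℂ T) : Submodule ℂ (Module.End ℂ U) :=
  V ⊓ wsp S.ι χ

section Vw

variable {V : Submodule ℂ (Module.End ℂ U)} (hV : ∀ x ∈ L, ∀ v ∈ V, x * v - v * x ∈ V)

theorem mem_vw {χ : Module.Dual ℂ T} {x : Module.End ℂ U} :
    x ∈ S.vw V χ ↔ x ∈ V ∧ ∀ t, S.ι t * x - x * S.ι t = χ t • x := by
  rfl

include hV in
/-- Root vectors shift the weights. -/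
theorem act {α : Module.Dual ℂ T} (hα : α ∈ S.R.Φ) {χ : Module.Dual ℂ T} {x : Module.End ℂ U}
    (hx : x ∈ S.vw V χ) : S.e α * x - x * S.e α ∈ S.vw V (α + χ) := by
  rw [mem_vw] at hx ⊢
  refine ⟨hV _ (S.emem α hα) x hx.1, fun t => ?_⟩
  have h1 := S.wt α hα t
  have h2 := hx.2 t
  have h3 : S.ι t * (S.e α * x - x * S.e α) - (S.e α * x - x * S.e α) * S.ι t =
      ((S.ι t * S.e α - S.e α * S.ι t) * x - x * (S.ι t * S.e α - S.e α * S.ι t)) +
        (S.e α * (S.ι t * x - x * S.ι t) - (S.ι t * x - x * S.ι t) * S.e α) := by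
    noncomm_ring
  rw [h3, h1, h2, LinearMap.add_apply, add_smul, smul_mul_assoc, mul_smul_comm, mul_smul_comm,
    smul_mul_assoc, ← smul_sub, ← smul_sub]

theorem two {α : Module.Dual ℂ T} (hα : α ∈ S.R.Φ) : α (S.h α) = 2 := by
  rw [S.prh α hα α (S.rat α hα α hα), S.R.two α hα]
  norm_num

theorem triple {α : Module.Dual ℂ T} (hα : α ∈ S.R.Φ) :
    IsSl2Triple (S.ι (S.h α)) (S.e α) (S.e (-α)) where
  h_ne_zero := by
    intro h
    have h1 := S.wt α hα (S.h α)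
    rw [h, zero_mul, mul_zero, sub_zero, S.two hα] at h1
    have h2 := smul_eq_zero.1 h1.symm
    rcases h2 with h2 | h2
    · norm_num at h2
    · exact S.ene α hα h2
  lie_e_f := by
    rw [Ring.lie_def]
    exact S.br α hα
  lie_h_e_nsmul := by
    rw [Ring.lie_def, S.wt α hα, S.two hα, ← ofNat_smul_eq_nsmul ℂ 2]
  lie_h_f_nsmul := by
    rw [Ring.lie_def, S.wt _ (S.R.neg α hα), LinearMap.neg_apply, S.two hα, neg_smul,
      ← ofNat_smul_eq_nsmul ℂ 2]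

/-- The weights are integral. -/
theorem wint {α : Module.Dual ℂ T} (hα : α ∈ S.R.Φ) {χ : Module.Dual ℂ T} {x : Module.End ℂ U}
    (hx : x ∈ wsp S.ι χ) (hx0 : x ≠ 0) :
    (∃ n : ℤ, S.R.pr α χ = n) ∧ χ (S.h α) = (S.R.pr α χ : ℂ) := by
  have h1 : ⁅S.ι (S.h α), x⁆ = χ (S.h α) • x := by
    rw [Ring.lie_def]
    exact hx _
  obtain ⟨n, k, -, h2⟩ := Wt_prim (S.triple hα) hx0 h1
  have h3 : χ (S.h α) = (S.R.pr α χ : ℂ) :=
    S.prh α hα χ ⟨(n : ℚ) - 2 * k, by rw [h2]; push_cast; ring⟩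
  refine ⟨⟨(n : ℤ) - 2 * k, ?_⟩, h3⟩
  rw [h2] at h3
  have h4 : ((S.R.pr α χ : ℚ) : ℂ) = (((n : ℚ) - 2 * k : ℚ) : ℂ) := by
    rw [← h3]
    push_cast
    ring
  have h5 := Rat.cast_injective h4
  rw [h5]
  push_cast
  ring

include hV in
theorem pow_mem {α : Module.Dual ℂ T} (hα : α ∈ S.R.Φ) {χ : Module.Dual ℂ T}
    {x : Module.End ℂ U} (hx : x ∈ S.vw V χ) (k : ℕ) :
    ((LieModule.toEnd ℂ (Module.End ℂ U) (Module.End ℂ U) (S.e α)) ^ k) x ∈
      S.vw V (k • α + χ) := by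
  induction k with
  | zero => simpa using hx
  | succ k ih =>
    rw [pow_succ', Module.End.mul_apply, LieModule.toEnd_apply_apply, Ring.lie_def]
    have := S.act hV hα ih
    rw [← add_assoc] at this
    rwa [succ_nsmul']

include hV in
/-- strings of weights -/
theorem str {α : Module.Dual ℂ T} (hα : α ∈ S.R.Φ) {ω : Module.Dual ℂ T} {x : Module.End ℂ U}
    (hx : x ∈ S.vw V ω) (hx0 : x ≠ 0) (j : ℕ) (hj : (j : ℚ) ≤ S.R.pr α ω) :
    ∃ y ∈ S.vw V (ω - (j : ℚ) • α), y ≠ 0 := by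
  have h1 : ⁅S.ι (S.h α), x⁆ = ((S.R.pr α ω : ℚ) : ℂ) • x := by
    rw [Ring.lie_def, ← (S.wint hα hx.2 hx0).2]
    exact hx.2 _
  obtain ⟨n, k, hP, h2⟩ := Wt_prim (S.triple hα) hx0 h1
  have h3 : (S.R.pr α ω : ℚ) = (n : ℚ) - 2 * k := by
    have : ((S.R.pr α ω : ℚ) : ℂ) = (((n : ℚ) - 2 * k : ℚ) : ℂ) := by
      rw [h2]; push_cast; ring
    exact Rat.cast_injective this
  have h4 : k + j ≤ n := by
    have : ((j : ℚ)) + 2 * k ≤ n := by linarith
    have : j + 2 * k ≤ n := by exact_mod_cast this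
    omega
  have h5 := hP.pow_toEnd_f_ne_zero_of_eq_nat rfl h4
  have h6 := S.pow_mem hV hα hx k
  have h7 := S.pow_mem hV (S.R.neg α hα) h6 (k + j)
  have h8 : (k + j) • (-α) + (k • α + ω) = ω - (j : ℚ) • α := by
    rw [Nat.cast_smul_eq_nsmul, add_smul, smul_neg, smul_neg]
    abel
  rw [h8] at h7
  exact ⟨_, h7, h5⟩

include hV in
/-- reflections of weights -/
theorem rfl' {α : Module.Dual ℂ T} (hα : α ∈ S.R.Φ) {ω : Module.Dual ℂ T} {x : Module.End ℂ U}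
    (hx : x ∈ S.vw V ω) (hx0 : x ≠ 0) :
    ∃ y ∈ S.vw V (ω - S.R.pr α ω • α), y ≠ 0 := by
  obtain ⟨⟨n, hn⟩, -⟩ := S.wint hα hx.2 hx0
  rcases le_total 0 n with h | h
  · obtain ⟨j, rfl⟩ := Int.eq_ofNat_of_zero_le h
    have h1 : S.R.pr α ω = (j : ℚ) := by rw [hn]; norm_cast
    rw [h1]
    exact S.str hV hα hx hx0 j (by rw [h1])
  · obtain ⟨j, hj⟩ := Int.eq_ofNat_of_zero_le (neg_nonneg.2 h)
    have h1 : S.R.pr (-α) ω = (j : ℚ) := by
      rw [S.R.pneg α hα, hn]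
      have : ((-n : ℤ) : ℚ) = ((j : ℤ) : ℚ) := by rw [hj]
      push_cast at this
      exact this
    have h2 : ω - S.R.pr α ω • α = ω - (j : ℚ) • (-α) := by
      rw [← h1, S.R.pneg α hα, neg_smul, smul_neg, neg_neg]
    rw [h2]
    exact S.str hV (S.R.neg α hα) hx hx0 j (by rw [h1])

end Vw

/-- The weight spaces are independent. -/
theorem wsp_indep : iSupIndep fun χ : Module.Dual ℂ T => wsp S.ι χ := by
  let ad : T → Module.End ℂ (Module.End ℂ U) := fun t =>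
    LinearMap.mulLeft ℂ (S.ι t) - LinearMap.mulRight ℂ (S.ι t)
  have hcomm : ∀ s t, Commute (ad s) (ad t) := by
    intro s t
    have h := S.comm s t
    apply LinearMap.ext
    intro x
    simp only [ad, Module.End.mul_apply, LinearMap.sub_apply, LinearMap.mulLeft_apply,
      LinearMap.mulRight_apply]
    have h1 : S.ι s * (S.ι t * x - x * S.ι t) - (S.ι t * x - x * S.ι t) * S.ι s =
        (S.ι s * S.ι t) * x - S.ι s * x * S.ι t - S.ι t * x * S.ι s + x * (S.ι t * S.ι s) := by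
      noncomm_ring
    have h2 : S.ι t * (S.ι s * x - x * S.ι s) - (S.ι s * x - x * S.ι s) * S.ι t =
        (S.ι t * S.ι s) * x - S.ι t * x * S.ι s - S.ι s * x * S.ι t + x * (S.ι s * S.ι t) := by
      noncomm_ring
    rw [h1, h2, h]
    abel
  have h1 := Module.End.independent_iInf_maxGenEigenspace_of_forall_mapsTo ad
    (fun i j φ => Module.End.mapsTo_maxGenEigenspace_of_comm (hcomm j i) φ)
  have h2 := h1.comp (f := fun χ : Module.Dual ℂ T => (fun t => χ t)) (fun a b hab => by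
    ext t
    exact congrFun hab t)
  refine h2.mono ?_
  intro χ x hx
  simp only [Function.comp_apply, Submodule.mem_iInf]
  intro t
  refine Module.End.mem_maxGenEigenspace _ _ _ |>.2 ⟨1, ?_⟩
  simp only [pow_one, LinearMap.sub_apply, LinearMap.smul_apply, Module.End.one_apply]
  have := hx t
  simp only [ad, LinearMap.sub_apply, LinearMap.mulLeft_apply, LinearMap.mulRight_apply]
  rw [this, sub_self]

theorem usp_indep : iSupIndep fun χ : Module.Dual ℂ T => usp S.ι χ := by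
  have h1 := Module.End.independent_iInf_maxGenEigenspace_of_forall_mapsTo (fun t => S.ι t)
    (fun i j φ => Module.End.mapsTo_maxGenEigenspace_of_comm (S.comm j i) φ)
  have h2 := h1.comp (f := fun χ : Module.Dual ℂ T => (fun t => χ t)) (fun a b hab => by
    ext t
    exact congrFun hab t)
  refine h2.mono ?_
  intro χ x hx
  simp only [Function.comp_apply, Submodule.mem_iInf]
  intro t
  refine Module.End.mem_maxGenEigenspace _ _ _ |>.2 ⟨1, ?_⟩
  simp only [pow_one, LinearMap.sub_apply, LinearMap.smul_apply, Module.End.one_apply]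
  rw [hx t, sub_self]


theorem usp_mul {ω χ : Module.Dual ℂ T} {x : Module.End ℂ U} (hx : x ∈ wsp S.ι ω) {u : U}
    (hu : u ∈ usp S.ι χ) : x u ∈ usp S.ι (ω + χ) := by
  intro t
  have h1 : S.ι t * x = x * S.ι t + ω t • x := by
    rw [← hx t]
    abel
  have h2 : S.ι t (x u) = (S.ι t * x) u := rfl
  rw [h2, h1, LinearMap.add_apply, LinearMap.smul_apply, Module.End.mul_apply, hu t, map_smul,
    LinearMap.add_apply, add_smul]
  abel

/-- Brackets with root vectors stay in the Lie algebra. -/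
theorem bracket {x : Module.End ℂ U} (hx : x ∈ L) {γ : Module.Dual ℂ T} (hγ : γ ∈ S.R.Φ) :
    x * S.e γ - S.e γ * x ∈ L := by
  let F : Module.End ℂ U →ₗ[ℂ] Module.End ℂ U :=
    LinearMap.mulRight ℂ (S.e γ) - LinearMap.mulLeft ℂ (S.e γ)
  have hF : ∀ y, F y = y * S.e γ - S.e γ * y := fun y => rfl
  have h1 : LinearMap.range S.ι ⊔ Submodule.span ℂ (S.e '' S.R.Φ) ≤ L.comap F := by
    rw [sup_le_iff]
    constructor
    · rintro _ ⟨t, rfl⟩
      rw [Submodule.mem_comap, hF, S.wt γ hγ t]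
      exact L.smul_mem _ (S.emem γ hγ)
    · rw [Submodule.span_le]
      rintro _ ⟨β, hβ, rfl⟩
      rw [SetLike.mem_coe, Submodule.mem_comap, hF]
      by_cases h0 : β + γ = 0
      · have h2 : γ = -β := (neg_eq_of_add_eq_zero_right h0).symm
        rw [h2, S.br β hβ]
        exact S.ιmem _
      · by_cases h3 : β + γ ∈ S.R.Φ
        · obtain ⟨c, hc⟩ := S.add1 β hβ γ hγ h3
          rw [hc]
          exact L.smul_mem _ (S.emem _ h3)
        · rw [S.add0 β hβ γ hγ h0 h3, sub_self]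
          exact L.zero_mem
  have h2 := h1 (S.span hx)
  exact h2

/-- The vectors generated by `u` under the negative root vectors. -/
def gen (u : U) (l : List (Module.Dual ℂ T)) : U := (l.map S.e).prod u

theorem gen_nil (u : U) : S.gen u [] = u := by
  unfold gen
  simp

theorem gen_cons (u : U) (γ : Module.Dual ℂ T) (l : List (Module.Dual ℂ T)) :
    S.gen u (γ :: l) = S.e γ (S.gen u l) := by
  unfold gen
  rw [List.map_cons, List.prod_cons, Module.End.mul_apply]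

/-- The span of these vectors. -/
def D (φ : Module.Dual ℂ T →ₗ[ℚ] ℚ) (u : U) : Submodule ℂ U :=
  Submodule.span ℂ {v | ∃ l : List (Module.Dual ℂ T), (∀ γ ∈ l, γ ∈ S.R.Φ ∧ φ γ < 0) ∧
    v = S.gen u l}

theorem D_neg {φ : Module.Dual ℂ T →ₗ[ℚ] ℚ} {u : U} {γ : Module.Dual ℂ T} (hγ : γ ∈ S.R.Φ)
    (hn : φ γ < 0) : ∀ v ∈ S.D φ u, S.e γ v ∈ S.D φ u := by
  intro v hv
  have h1 : S.D φ u ≤ (S.D φ u).comap (S.e γ) := by
    conv_lhs => unfold D
    rw [Submodule.span_le]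
    rintro _ ⟨l, hl, rfl⟩
    rw [SetLike.mem_coe, Submodule.mem_comap, ← gen_cons]
    apply Submodule.subset_span
    refine ⟨γ :: l, ?_, rfl⟩
    intro β hβ
    rcases List.mem_cons.1 hβ with rfl | hβ
    · exact ⟨hγ, hn⟩
    · exact hl β hβ
  exact h1 hv

theorem D_stable {φ : Module.Dual ℂ T →ₗ[ℚ] ℚ} (hφ : ∀ α ∈ S.R.Φ, φ α ≠ 0) {χ : Module.Dual ℂ T}
    {u : U} (hu : u ∈ usp S.ι χ) (hk : ∀ α ∈ S.R.Φ, 0 < φ α → S.e α u = 0)
    (l : List (Module.Dual ℂ T)) : (∀ γ ∈ l, γ ∈ S.R.Φ ∧ φ γ < 0) → ∀ x ∈ L,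
      x (S.gen u l) ∈ S.D φ u := by
  induction l with
  | nil =>
    intro _ x hx
    have huD : u ∈ S.D φ u := Submodule.subset_span ⟨[], by simp, (S.gen_nil u).symm⟩
    rw [gen_nil]
    let F : Module.End ℂ U →ₗ[ℂ] U := LinearMap.applyₗ u
    have hF : ∀ y, F y = y u := fun y => rfl
    have h1 : LinearMap.range S.ι ⊔ Submodule.span ℂ (S.e '' S.R.Φ) ≤ (S.D φ u).comap F := by
      rw [sup_le_iff]
      constructor
      · rintro _ ⟨t, rfl⟩
        rw [Submodule.mem_comap, hF, hu t]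
        exact Submodule.smul_mem _ _ huD
      · rw [Submodule.span_le]
        rintro _ ⟨β, hβ, rfl⟩
        rw [SetLike.mem_coe, Submodule.mem_comap, hF]
        rcases lt_or_gt_of_ne (hφ β hβ) with h | h
        · exact S.D_neg hβ h u huD
        · rw [hk β hβ h]
          exact Submodule.zero_mem _
    exact h1 (S.span hx)
  | cons γ l ih =>
    intro hl x hx
    have hγ := hl γ List.mem_cons_self
    have ih' := ih (fun β hβ => hl β (List.mem_cons_of_mem _ hβ))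
    rw [gen_cons]
    have h1 : x (S.e γ (S.gen u l)) =
        (x * S.e γ - S.e γ * x) (S.gen u l) + S.e γ (x (S.gen u l)) := by
      rw [LinearMap.sub_apply, Module.End.mul_apply, Module.End.mul_apply, sub_add_cancel]
    rw [h1]
    exact Submodule.add_mem _ (ih' _ (S.bracket hx hγ.1)) (S.D_neg hγ.1 hγ.2 _ (ih' x hx))

/-- the elements commuting with the root vectors -/
theorem D_cen {φ : Module.Dual ℂ T →ₗ[ℚ] ℚ} {u : U} {z : Module.End ℂ U}
    (hz : ∀ α ∈ S.R.Φ, z * S.e α = S.e α * z) {c : ℂ} (hc : z u = c • u)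
    (l : List (Module.Dual ℂ T)) : (∀ γ ∈ l, γ ∈ S.R.Φ ∧ φ γ < 0) → z (S.gen u l) = c • S.gen u l := by
  induction l with
  | nil =>
    intro _
    rw [gen_nil, hc]
  | cons γ l ih =>
    intro hl
    have hγ := hl γ List.mem_cons_self
    have ih' := ih (fun β hβ => hl β (List.mem_cons_of_mem _ hβ))
    rw [gen_cons, ← Module.End.mul_apply, hz γ hγ.1, Module.End.mul_apply, ih', map_smul]

theorem D_adjoin {φ : Module.Dual ℂ T →ₗ[ℚ] ℚ} (hφ : ∀ α ∈ S.R.Φ, φ α ≠ 0) {χ : Module.Dual ℂ T}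
    {u : U} (hu : u ∈ usp S.ι χ) (hk : ∀ α ∈ S.R.Φ, 0 < φ α → S.e α u = 0)
    {𝔥 : Submodule ℂ (Module.End ℂ U)} (h𝔥 : ∀ x ∈ 𝔥, ∃ z, ∃ d ∈ L, x = z + d ∧
      (∀ α ∈ S.R.Φ, z * S.e α = S.e α * z) ∧ ∃ c : ℂ, z u = c • u)
    {a : Module.End ℂ U} (ha : a ∈ Algebra.adjoin ℂ (𝔥 : Set (Module.End ℂ U))) :
    ∀ v ∈ S.D φ u, a v ∈ S.D φ u := by
  induction ha using Algebra.adjoin_induction with
  | mem x hx =>
    intro v hv
    obtain ⟨z, d, hd, rfl, hz, c, hc⟩ := h𝔥 x hx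
    have h1 : S.D φ u ≤ (S.D φ u).comap (z + d) := by
      conv_lhs => unfold D
      rw [Submodule.span_le]
      rintro _ ⟨l, hl, rfl⟩
      rw [SetLike.mem_coe, Submodule.mem_comap, LinearMap.add_apply, S.D_cen hz hc l hl]
      exact Submodule.add_mem _ (Submodule.smul_mem _ _ (Submodule.subset_span ⟨l, hl, rfl⟩))
        (S.D_stable hφ hu hk l hl d hd)
    exact h1 hv
  | algebraMap r =>
    intro v hv
    rw [Module.algebraMap_end_apply]
    exact Submodule.smul_mem _ _ hv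
  | add x y _ _ hx hy =>
    intro v hv
    rw [LinearMap.add_apply]
    exact Submodule.add_mem _ (hx v hv) (hy v hv)
  | mul x y _ _ hx hy =>
    intro v hv
    rw [Module.End.mul_apply]
    exact hx _ (hy v hv)

theorem gen_weight {χ : Module.Dual ℂ T} {u : U} (hu : u ∈ usp S.ι χ)
    (l : List (Module.Dual ℂ T)) :
    (∀ γ ∈ l, γ ∈ S.R.Φ) → S.gen u l ∈ usp S.ι (l.sum + χ) := by
  induction l with
  | nil =>
    intro _
    rw [gen_nil, List.sum_nil, zero_add]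
    exact hu
  | cons γ l ih =>
    intro hl
    have hγ := hl γ List.mem_cons_self
    have h1 := ih (fun β hβ => hl β (List.mem_cons_of_mem _ hβ))
    rw [gen_cons, List.sum_cons, add_assoc]
    exact S.usp_mul (fun t => S.wt γ hγ t) h1

/-- **The principle**: elements of weight `μ` of the enveloping algebra map the vector `u` to linear
combinations of words of total weight `μ`. -/
theorem words {φ : Module.Dual ℂ T →ₗ[ℚ] ℚ} (hφ : ∀ α ∈ S.R.Φ, φ α ≠ 0) {χ : Module.Dual ℂ T}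
    {u : U} (hu : u ∈ usp S.ι χ) (hk : ∀ α ∈ S.R.Φ, 0 < φ α → S.e α u = 0)
    {𝔥 : Submodule ℂ (Module.End ℂ U)} (h𝔥 : ∀ x ∈ 𝔥, ∃ z, ∃ d ∈ L, x = z + d ∧
      (∀ α ∈ S.R.Φ, z * S.e α = S.e α * z) ∧ ∃ c : ℂ, z u = c • u)
    {a : Module.End ℂ U} (ha : a ∈ Algebra.adjoin ℂ (𝔥 : Set (Module.End ℂ U)))
    {μ : Module.Dual ℂ T} (hμ : a ∈ wsp S.ι μ) :
    a u ∈ Submodule.span ℂ {v | ∃ l : List (Module.Dual ℂ T), (∀ γ ∈ l, γ ∈ S.R.Φ ∧ φ γ < 0) ∧
      l.sum = μ ∧ v = S.gen u l} := by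
  have huD : u ∈ S.D φ u := Submodule.subset_span ⟨[], by simp, (S.gen_nil u).symm⟩
  have h1 := S.D_adjoin hφ hu hk h𝔥 ha u huD
  have h2 : S.D φ u ≤ Submodule.span ℂ {v | ∃ l : List (Module.Dual ℂ T),
      (∀ γ ∈ l, γ ∈ S.R.Φ ∧ φ γ < 0) ∧ l.sum = μ ∧ v = S.gen u l} ⊔
      ⨆ ψ, ⨆ (_ : ψ ≠ μ + χ), usp S.ι ψ := by
    unfold D
    rw [Submodule.span_le]
    rintro _ ⟨l, hl, rfl⟩
    by_cases hs : l.sum = μ
    · exact Submodule.mem_sup_left (Submodule.subset_span ⟨l, hl, hs, rfl⟩)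
    · apply Submodule.mem_sup_right
      have h3 : usp S.ι (l.sum + χ) ≤ ⨆ ψ, ⨆ (_ : ψ ≠ μ + χ), usp S.ι ψ :=
        le_iSup₂_of_le (l.sum + χ) (fun h => hs (add_right_cancel h)) le_rfl
      exact h3 (S.gen_weight hu l fun γ hγ => (hl γ hγ).1)
  obtain ⟨y, hy, r, hr, hyr⟩ := Submodule.mem_sup.1 (h2 h1)
  have h4 : y ∈ usp S.ι (μ + χ) := by
    refine (Submodule.span_le.2 ?_) hy
    rintro _ ⟨l, hl, hs, rfl⟩
    rw [← hs]
    exact S.gen_weight hu l fun γ hγ => (hl γ hγ).1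
  have h5 : r ∈ usp S.ι (μ + χ) := by
    have h6 : r = a u - y := by rw [← hyr]; abel
    rw [h6]
    exact Submodule.sub_mem _ (S.usp_mul hμ hu) h4
  have h7 := (S.usp_indep (μ + χ)).le_bot ⟨h5, hr⟩
  rw [(Submodule.mem_bot ℂ).1 h7, add_zero] at hyr
  rw [← hyr]
  exact hy

end RS

end Pool.Agent.R912
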