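import Pool.Agent.R912.U2

set_option autoImplicit false
set_option linter.unusedSectionVars false

/-!
# Canonical anticommutation relations
-/

open Module

namespace Pool.Agent.R912

open Pool.Agent.Y102.SP

variable {U : Type} [AddCommGroup U] [Module ℂ U]

/-- creation and annihilation operators -/
structure CAR {N : ℕ} (a b : Fin N → Module.End ℂ U) : Prop where
  aa : ∀ i j, a i * a j = -(a j * a i)
  bb : ∀ i j, b i * b j = -(b j * b i)
  ab : ∀ i j, a i * b j + b j * a i = if i = j then 1 else 0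

/-- the number of the generator -/
noncomputable def gij {N : ℕ} (a b : Fin N → Module.End ℂ U) (i j : Fin N) : Module.End ℂ U :=
  a i * b j - if i = j then (2⁻¹ : ℂ) • 1 else 0

/-- the Lie algebra `⊕ gl` -/
def glC {N k : ℕ} (a b : Fin N → Module.End ℂ U) (c : Fin N → Fin k) :
    Submodule ℂ (Module.End ℂ U) :=
  Submodule.span ℂ {x | ∃ i j, c i = c j ∧ x = gij a b i j}

/-- the states with occupied places `S` -/
def St {N : ℕ} (a b : Fin N → Module.End ℂ U) (S : Finset (Fin N)) (v : U) : Prop :=
  (∀ i ∈ S, a i v = 0) ∧ ∀ i, i ∉ S → b i v = 0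

variable {N k : ℕ} {a b : Fin N → Module.End ℂ U} {c : Fin N → Fin k}

namespace CAR

variable (h : CAR a b)
include h

theorem aav (i j : Fin N) (v : U) : a i (a j v) = -a j (a i v) :=
  LinearMap.congr_fun (h.aa i j) v

theorem bbv (i j : Fin N) (v : U) : b i (b j v) = -b j (b i v) :=
  LinearMap.congr_fun (h.bb i j) v

theorem abv (i : Fin N) (v : U) : a i (b i v) = v - b i (a i v) := by
  have h1 := LinearMap.congr_fun (h.ab i i) v
  rw [if_pos rfl] at h1
  exact eq_sub_of_add_eq h1

theorem bav (i : Fin N) (v : U) : b i (a i v) = v - a i (b i v) := by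
  rw [h.abv]
  abel

theorem abv' {i j : Fin N} (hij : i ≠ j) (v : U) : a i (b j v) = -b j (a i v) := by
  have h1 := LinearMap.congr_fun (h.ab i j) v
  rw [if_neg hij] at h1
  exact eq_neg_of_add_eq_zero_left h1

theorem bav' {i j : Fin N} (hij : i ≠ j) (v : U) : b j (a i v) = -a i (b j v) := by
  rw [h.abv' hij, neg_neg]

theorem aa0 (i : Fin N) (v : U) : a i (a i v) = 0 := by
  have h1 := h.aav i i v
  have h2 : (2 : ℂ) • a i (a i v) = 0 := by
    rw [two_smul]
    nth_rw 1 [h1]
    exact neg_add_cancel _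
  exact (smul_eq_zero.1 h2).resolve_left two_ne_zero

theorem bb0 (i : Fin N) (v : U) : b i (b i v) = 0 := by
  have h1 := h.bbv i i v
  have h2 : (2 : ℂ) • b i (b i v) = 0 := by
    rw [two_smul]
    nth_rw 1 [h1]
    exact neg_add_cancel _
  exact (smul_eq_zero.1 h2).resolve_left two_ne_zero

/-- The vacuum. -/
theorem exists_vac [Nontrivial U] : ∃ v : U, v ≠ 0 ∧ St a b ∅ v := by
  classical
  have h1 : ∀ F : Finset (Fin N), ∃ v : U, v ≠ 0 ∧ ∀ i ∈ F, b i v = 0 := by
    intro F
    induction F using Finset.induction_on with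
    | empty =>
      obtain ⟨v, hv⟩ := exists_ne (0 : U)
      exact ⟨v, hv, by simp⟩
    | insert j F hj ih =>
      obtain ⟨v, hv, hF⟩ := ih
      by_cases h0 : b j v = 0
      · refine ⟨v, hv, fun i hi => ?_⟩
        rcases Finset.mem_insert.1 hi with rfl | hi
        · exact h0
        · exact hF i hi
      · refine ⟨b j v, h0, fun i hi => ?_⟩
        rcases Finset.mem_insert.1 hi with rfl | hi
        · exact h.bb0 _ _
        · rw [h.bbv, hF i hi, map_zero, neg_zero]
  obtain ⟨v, hv, hF⟩ := h1 Finset.univ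
  exact ⟨v, hv, by simp, fun i _ => hF i (Finset.mem_univ i)⟩

/-- There are states for all sets of occupied places. -/
theorem exists_state [Nontrivial U] (S : Finset (Fin N)) : ∃ v : U, v ≠ 0 ∧ St a b S v := by
  classical
  induction S using Finset.induction_on with
  | empty => exact h.exists_vac
  | insert j F hj ih =>
    obtain ⟨v, hv, hF⟩ := ih
    refine ⟨a j v, fun h0 => hv ?_, fun i hi => ?_, fun i hi => ?_⟩
    · have h1 := h.bav j v
      rw [h0, map_zero, hF.2 j hj, map_zero, sub_zero] at h1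
      exact h1.symm
    · rcases Finset.mem_insert.1 hi with rfl | hi
      · exact h.aa0 _ _
      · rw [h.aav, hF.1 i hi, map_zero, neg_zero]
    · rw [Finset.mem_insert, not_or] at hi
      rw [h.bav' (Ne.symm hi.1), hF.2 i hi.2, map_zero, neg_zero]

variable {S : Finset (Fin N)} {v : U} (hv : St a b S v)
include hv

/-- Extraction of a coefficient. -/
theorem ext1 {p q : Fin N} (hq : q ∈ S) (hp : p ∉ S) : a q (b p (a p (b q v))) = v := by
  rw [h.bav p (b q v), h.bbv p q, hv.2 p hp, map_zero, neg_zero, map_zero, sub_zero, h.abv,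
    hv.1 q hq, map_zero, sub_zero]

theorem ext0 {p q p' q' : Fin N} (hq : q ∈ S) (hp : p ∉ S)
    (hne : ¬(p' = p ∧ q' = q)) : a q (b p (a p' (b q' v))) = 0 := by
  by_cases hpp : p' = p
  · have hqq : q ≠ q' := fun h1 => hne ⟨hpp, h1.symm⟩
    rw [hpp, h.bav p (b q' v), h.bbv p q', hv.2 p hp, map_zero, neg_zero, map_zero, sub_zero,
      h.abv' hqq, hv.1 q hq, map_zero, neg_zero]
  · rw [h.bav' hpp, h.bbv p q', hv.2 p hp, map_zero, neg_zero, map_zero, neg_zero, map_zero]

theorem extv {p q : Fin N} (hp : p ∉ S) : a q (b p v) = 0 := by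
  rw [hv.2 p hp, map_zero]

/-- The values of the generators on the states. -/
theorem ab_ne {p q : Fin N} (hne : a p (b q v) ≠ 0) : q ∈ S ∧ (p = q ∨ p ∉ S) := by
  have hq : q ∈ S := by
    by_contra hq
    rw [hv.2 q hq, map_zero] at hne
    exact hne rfl
  refine ⟨hq, ?_⟩
  by_contra hcon
  push Not at hcon
  rw [h.abv' hcon.1, hv.1 p hcon.2, map_zero, neg_zero] at hne
  exact hne rfl

theorem ab_self {q : Fin N} (hq : q ∈ S) : a q (b q v) = v := by
  rw [h.abv, hv.1 q hq, map_zero, sub_zero]

theorem ab_self' (q : Fin N) : ∃ t : ℂ, a q (b q v) = t • v := by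
  by_cases hq : q ∈ S
  · exact ⟨1, by rw [h.ab_self hv hq, one_smul]⟩
  · exact ⟨0, by rw [hv.2 q hq, map_zero, zero_smul]⟩

/-- Two transitions are independent. -/
theorem TT (hv0 : v ≠ 0) {p q p' q' : Fin N} (hq : q ∈ S) (hp : p ∉ S) (hq' : q' ∈ S)
    (hp' : p' ∉ S) {w : U} {s s' : ℂ} (h1 : a p (b q v) = s • w) (h2 : a p' (b q' v) = s' • w) :
    p' = p ∧ q' = q := by
  by_contra hne
  have e1 := h.ext1 hv hq hp
  have e2 := h.ext0 hv hq hp hne
  rw [h1, map_smul, map_smul] at e1
  rw [h2, map_smul, map_smul] at e2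
  rcases smul_eq_zero.1 e2 with h3 | h3
  · have e3 := h.ext1 hv hq' hp'
    rw [h2, h3, zero_smul, map_zero, map_zero] at e3
    exact hv0 e3.symm
  · rw [h3, smul_zero] at e1
    exact hv0 e1.symm

end CAR

/-- coefficients -/
theorem glC_coef {x : Module.End ℂ U} (hx : x ∈ glC a b c) :
    ∃ M : Fin N → Fin N → ℂ, (∀ i j, M i j ≠ 0 → c i = c j) ∧
      x = ∑ i, ∑ j, M i j • gij a b i j := by
  classical
  induction hx using Submodule.span_induction with
  | mem x hx =>
    obtain ⟨i, j, hij, rfl⟩ := hx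
    refine ⟨fun i' j' => if i' = i ∧ j' = j then 1 else 0, fun i' j' h => ?_, ?_⟩
    · by_cases h1 : i' = i ∧ j' = j
      · rw [h1.1, h1.2, hij]
      · exact absurd (if_neg h1) h
    · rw [Finset.sum_eq_single i, Finset.sum_eq_single j]
      · beta_reduce
        rw [if_pos ⟨rfl, rfl⟩, one_smul]
      · intro j' _ hj
        beta_reduce
        rw [if_neg (fun h : i = i ∧ j' = j => hj h.2), zero_smul]
      · intro h
        exact absurd (Finset.mem_univ _) h
      · intro i' _ hi
        refine Finset.sum_eq_zero fun j' _ => ?_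
        beta_reduce
        rw [if_neg (fun h : i' = i ∧ j' = j => hi h.1), zero_smul]
      · intro h
        exact absurd (Finset.mem_univ _) h
  | zero => exact ⟨0, fun i j h => absurd rfl h, by simp⟩
  | add x y _ _ hx hy =>
    obtain ⟨M, hM, rfl⟩ := hx
    obtain ⟨M', hM', rfl⟩ := hy
    refine ⟨fun i j => M i j + M' i j, fun i j h => ?_, ?_⟩
    · by_contra hc
      have h1 : M i j = 0 := by
        by_contra h1
        exact hc (hM i j h1)
      have h2 : M' i j = 0 := by
        by_contra h2
        exact hc (hM' i j h2)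
      exact h (by beta_reduce; rw [h1, h2, add_zero])
    · rw [← Finset.sum_add_distrib]
      refine Finset.sum_congr rfl fun i _ => ?_
      rw [← Finset.sum_add_distrib]
      refine Finset.sum_congr rfl fun j _ => ?_
      rw [add_smul]
  | smul t x _ hx =>
    obtain ⟨M, hM, rfl⟩ := hx
    refine ⟨fun i j => t * M i j, fun i j h => hM i j fun h0 => h (by beta_reduce; rw [h0, mul_zero]), ?_⟩
    rw [Finset.smul_sum]
    refine Finset.sum_congr rfl fun i _ => ?_
    rw [Finset.smul_sum]
    refine Finset.sum_congr rfl fun j _ => ?_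
    rw [smul_smul]

theorem gij_apply (i j : Fin N) (v : U) :
    gij a b i j v = a i (b j v) - if i = j then (2⁻¹ : ℂ) • v else 0 := by
  unfold gij
  split_ifs
  · rfl
  · rw [sub_zero, sub_zero]
    rfl

/-- Elements which commute with the number operators act by scalars on the states. -/
theorem CAR.scalar (h : CAR a b) {x : Module.End ℂ U} (hx : x ∈ glC a b c)
    (hc : ∀ i, x * (a i * b i) = (a i * b i) * x) {S : Finset (Fin N)} {v : U}
    (hv : St a b S v) : ∃ t : ℂ, x v = t • v := by
  classical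
  obtain ⟨M, -, hM⟩ := glC_coef hx
  have hxS : St a b S (x v) := by
    have hcv : ∀ i, x (a i (b i v)) = a i (b i (x v)) := fun i => LinearMap.congr_fun (hc i) v
    refine ⟨fun i hi => ?_, fun i hi => ?_⟩
    · have h1 := hcv i
      rw [h.ab_self hv hi] at h1
      rw [h1, h.aa0]
    · have h1 := hcv i
      rw [hv.2 i hi, map_zero, map_zero] at h1
      have h2 := h.bav i (b i (x v))
      rw [h.bb0, map_zero, sub_zero, ← h1, map_zero] at h2
      exact h2.symm
  -- the value of x
  have hval : x v = ∑ i, ∑ j, M i j • gij a b i j v := by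
    conv_lhs => rw [hM]
    rw [LinearMap.sum_apply]
    refine Finset.sum_congr rfl fun i _ => ?_
    rw [LinearMap.sum_apply]
    rfl
  have hdiag : ∀ i, ∃ t : ℂ, gij a b i i v = t • v := by
    intro i
    obtain ⟨t, ht⟩ := h.ab_self' hv i
    refine ⟨t - 2⁻¹, ?_⟩
    rw [gij_apply, if_pos rfl, ht, sub_smul]
  have hM0 : v = 0 ∨ ∀ q ∈ S, ∀ p, p ∉ S → M p q = 0 := by
    by_cases hv0 : v = 0
    · exact Or.inl hv0
    right
    intro q hq p hp
    have h1 : a q (b p (x v)) = 0 := h.extv hxS hp
    rw [hval, map_sum, map_sum, Finset.sum_eq_single p] at h1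
    · rw [map_sum, map_sum, Finset.sum_eq_single q] at h1
      · rw [map_smul, map_smul, gij_apply, if_neg (fun hpq : p = q => hp (hpq ▸ hq)), sub_zero,
          h.ext1 hv hq hp] at h1
        exact (smul_eq_zero.1 h1).resolve_right hv0
      · intro j _ hj
        rw [map_smul, map_smul, gij_apply, map_sub, map_sub, h.ext0 hv hq hp (fun h2 => hj h2.2)]
        split_ifs
        · rw [map_smul, map_smul, h.extv hv hp, smul_zero, sub_zero, smul_zero]
        · rw [map_zero, map_zero, sub_zero, smul_zero]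
      · intro h2
        exact absurd (Finset.mem_univ _) h2
    · intro i _ hi
      rw [map_sum, map_sum]
      refine Finset.sum_eq_zero fun j _ => ?_
      rw [map_smul, map_smul, gij_apply, map_sub, map_sub, h.ext0 hv hq hp (fun h2 => hi h2.1)]
      split_ifs
      · rw [map_smul, map_smul, h.extv hv hp, smul_zero, sub_zero, smul_zero]
      · rw [map_zero, map_zero, sub_zero, smul_zero]
    · intro h2
      exact absurd (Finset.mem_univ _) h2
  rcases hM0 with hv0 | hM0
  · exact ⟨0, by rw [hv0, map_zero, smul_zero]⟩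
  choose t ht using hdiag
  refine ⟨∑ i, M i i * t i, ?_⟩
  rw [hval, Finset.sum_smul]
  refine Finset.sum_congr rfl fun i _ => ?_
  rw [Finset.sum_eq_single i]
  · rw [ht, smul_smul]
  · intro j _ hj
    rw [gij_apply, if_neg (Ne.symm hj), sub_zero]
    by_cases h0 : a i (b j v) = 0
    · rw [h0, smul_zero]
    · obtain ⟨h1, h2⟩ := h.ab_ne hv h0
      rcases h2 with h2 | h2
      · exact absurd h2.symm hj
      · rw [hM0 j h1 i h2, zero_smul]
  · intro h2
    exact absurd (Finset.mem_univ _) h2

/-- Scalars depend linearly on the operator. -/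
theorem exists_dual {T : Type} [AddCommGroup T] [Module ℂ T] (ι : T →ₗ[ℂ] Module.End ℂ U) {v : U}
    (hv : v ≠ 0) (h : ∀ t, ∃ s : ℂ, ι t v = s • v) : ∃ χ : Module.Dual ℂ T, v ∈ usp ι χ := by
  choose s hs using h
  refine ⟨{ toFun := s, map_add' := fun t t' => ?_, map_smul' := fun r t => ?_ }, hs⟩
  · have h1 := hs (t + t')
    rw [map_add, LinearMap.add_apply, hs t, hs t', ← add_smul] at h1
    exact (smul_left_injective ℂ hv h1).symm
  · have h1 := hs (r • t)
    rw [map_smul, LinearMap.smul_apply, hs t, smul_smul] at h1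
    exact (smul_left_injective ℂ hv h1).symm

end Pool.Agent.R912
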