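import Pool.Agent.R912.U3
import Pool.Agent.Y102.SP.Fun

set_option autoImplicit false
set_option linter.unusedSectionVars false

/-!
# Subalgebras of `⊕ gl` with weights: the words
-/

open Module

namespace Pool.Agent.R912

open Pool.Agent.Y102.SP

variable {U : Type} [AddCommGroup U] [Module ℂ U] [FiniteDimensional ℂ U] [Nontrivial U]
  {T : Type} [AddCommGroup T] [Module ℂ T] {L 𝔥 : Submodule ℂ (Module.End ℂ U)}
  {N k : ℕ} {a b : Fin N → Module.End ℂ U} {c : Fin N → Fin k}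

/-- A subalgebra `𝔥` of `⊕ gl`, with derived algebra `L`, and with weights `x i`. -/
structure UW (S : RS L T) (𝔥 : Submodule ℂ (Module.End ℂ U)) (a b : Fin N → Module.End ℂ U)
    (c : Fin N → Fin k) (x : Fin N → Module.Dual ℂ T) : Prop where
  car : CAR a b
  Lle : L ≤ 𝔥
  le : 𝔥 ≤ glC a b c
  dec : ∀ y ∈ 𝔥, ∃ z ∈ 𝔥, ∃ d ∈ L, y = z + d ∧ ∀ w ∈ 𝔥, z * w = w * z
  gen : ∀ i j, c i = c j → a i * b j ∈ Algebra.adjoin ℂ (𝔥 : Set (Module.End ℂ U))
  ax : ∀ i, a i ∈ wsp S.ι (x i)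
  bx : ∀ i, b i ∈ wsp S.ι (-x i)

theorem wsp_mul (ι : T →ₗ[ℂ] Module.End ℂ U) {χ ψ : Module.Dual ℂ T} {y z : Module.End ℂ U}
    (hy : y ∈ wsp ι χ) (hz : z ∈ wsp ι ψ) : y * z ∈ wsp ι (χ + ψ) := by
  intro t
  have h1 : ι t * (y * z) - y * z * ι t = (ι t * y - y * ι t) * z + y * (ι t * z - z * ι t) := by
    noncomm_ring
  rw [h1, hy t, hz t, LinearMap.add_apply, add_smul, smul_mul_assoc, mul_smul_comm]

theorem comm_adjoin {z : Module.End ℂ U} (hz : ∀ w ∈ 𝔥, z * w = w * z) {y : Module.End ℂ U}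
    (hy : y ∈ Algebra.adjoin ℂ (𝔥 : Set (Module.End ℂ U))) : z * y = y * z := by
  induction hy using Algebra.adjoin_induction with
  | mem x hx => exact hz x hx
  | algebraMap r => exact (Algebra.commutes r z).symm
  | add x y _ _ hx hy => rw [mul_add, add_mul, hx, hy]
  | mul x y _ _ hx hy => rw [← mul_assoc, hx, mul_assoc, hy, mul_assoc]

namespace UW

variable {S : RS L T} {x : Fin N → Module.Dual ℂ T} (h : UW S 𝔥 a b c x)
include h

theorem abx (i j : Fin N) : a i * b j ∈ wsp S.ι (x i - x j) := by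
  rw [sub_eq_add_neg]
  exact wsp_mul _ (h.ax i) (h.bx j)

theorem gx (i j : Fin N) : gij a b i j ∈ wsp S.ι (x i - x j) := by
  unfold gij
  refine Submodule.sub_mem _ (h.abx i j) ?_
  split_ifs with hij
  · intro t
    rw [hij, sub_self, LinearMap.zero_apply, zero_smul, mul_smul_comm, smul_mul_assoc, mul_one,
      one_mul, sub_self]
  · exact Submodule.zero_mem _

/-- The states are weight vectors. -/
theorem st_wt {F : Finset (Fin N)} {v : U} (hv : St a b F v) (hv0 : v ≠ 0) :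
    ∃ χ : Module.Dual ℂ T, v ∈ usp S.ι χ := by
  refine exists_dual S.ι hv0 fun t => ?_
  refine h.car.scalar (h.le (h.Lle (S.ιmem t))) (fun i => ?_) hv
  have h1 := h.abx i i t
  rw [sub_self, LinearMap.zero_apply, zero_smul, sub_eq_zero] at h1
  exact h1

theorem st_cen {F : Finset (Fin N)} {v : U} (hv : St a b F v) {z : Module.End ℂ U} (hz : z ∈ 𝔥)
    (hc : ∀ w ∈ 𝔥, z * w = w * z) : ∃ s : ℂ, z v = s • v :=
  h.car.scalar (h.le hz) (fun i => comm_adjoin hc (h.gen i i rfl)) hv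

/-- Coefficients of weight vectors. -/
theorem expand {γ : Module.Dual ℂ T} (hγ : γ ≠ 0) {y : Module.End ℂ U} (hy : y ∈ glC a b c)
    (hw : y ∈ wsp S.ι γ) : ∃ M : Fin N → Fin N → ℂ, (∀ i j, M i j ≠ 0 → c i = c j ∧ x i - x j = γ) ∧
      y = ∑ i, ∑ j, M i j • (a i * b j) := by
  classical
  obtain ⟨M, hM, hMy⟩ := glC_coef hy
  obtain ⟨M', hM'⟩ : ∃ M' : Fin N → Fin N → ℂ, ∀ i j, M' i j = if x i - x j = γ then M i j else 0 :=
    ⟨_, fun i j => rfl⟩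
  have h1 : ∀ i j, M' i j • gij a b i j = M' i j • (a i * b j) := by
    intro i j
    rw [hM']
    split_ifs with hx
    · have hij : i ≠ j := by
        rintro rfl
        rw [sub_self] at hx
        exact hγ hx.symm
      unfold gij
      rw [if_neg hij, sub_zero]
    · rw [zero_smul, zero_smul]
  have h2 : (∑ i, ∑ j, M' i j • gij a b i j) ∈ wsp S.ι γ := by
    refine Submodule.sum_mem _ fun i _ => Submodule.sum_mem _ fun j _ => ?_
    rw [hM']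
    split_ifs with hx
    · refine Submodule.smul_mem _ _ ?_
      rw [← hx]
      exact h.gx i j
    · rw [zero_smul]
      exact Submodule.zero_mem _
  have h3 : y - (∑ i, ∑ j, M' i j • gij a b i j) ∈ ⨆ ψ, ⨆ (_ : ψ ≠ γ), wsp S.ι ψ := by
    rw [hMy, ← Finset.sum_sub_distrib]
    refine Submodule.sum_mem _ fun i _ => ?_
    rw [← Finset.sum_sub_distrib]
    refine Submodule.sum_mem _ fun j _ => ?_
    rw [hM', ← sub_smul]
    split_ifs with hx
    · rw [sub_self, zero_smul]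
      exact Submodule.zero_mem _
    · refine Submodule.smul_mem _ _ ?_
      have h4 : wsp S.ι (x i - x j) ≤ ⨆ ψ, ⨆ (_ : ψ ≠ γ), wsp S.ι ψ :=
        le_iSup₂_of_le (x i - x j) hx le_rfl
      exact h4 (h.gx i j)
  have h5 := (S.wsp_indep γ).le_bot ⟨Submodule.sub_mem _ hw h2, h3⟩
  have h6 := sub_eq_zero.1 ((Submodule.mem_bot ℂ).1 h5)
  refine ⟨M', fun i j h0 => ?_, ?_⟩
  · rw [hM'] at h0
    split_ifs at h0 with hx
    · exact ⟨hM i j h0, hx⟩
    · exact absurd rfl h0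
  · rw [h6]
    exact Finset.sum_congr rfl fun i _ => Finset.sum_congr rfl fun j _ => h1 i j

/-- Root vectors which do not kill a state. -/
theorem root_ne {γ : Module.Dual ℂ T} (hγ : γ ∈ S.R.Φ) {F : Finset (Fin N)} {v : U}
    (hv : St a b F v) (hne : S.e γ v ≠ 0) : ∃ q ∈ F, ∃ p, p ∉ F ∧ c p = c q ∧ x p - x q = γ := by
  classical
  have hγ0 : γ ≠ 0 := fun h0 => S.R.zero (h0 ▸ hγ)
  obtain ⟨M, hM, hMy⟩ := h.expand hγ0 (h.le (h.Lle (S.emem γ hγ))) (fun t => S.wt γ hγ t)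
  by_contra hcon
  apply hne
  rw [hMy, LinearMap.sum_apply]
  refine Finset.sum_eq_zero fun i _ => ?_
  rw [LinearMap.sum_apply]
  refine Finset.sum_eq_zero fun j _ => ?_
  rw [LinearMap.smul_apply, Module.End.mul_apply]
  by_cases h0 : M i j = 0
  · rw [h0, zero_smul]
  · obtain ⟨h1, h2⟩ := hM i j h0
    by_cases h3 : a i (b j v) = 0
    · rw [h3, smul_zero]
    · exfalso
      obtain ⟨h4, h5⟩ := h.car.ab_ne hv h3
      rcases h5 with h5 | h5
      · rw [h5, sub_self] at h2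
        exact hγ0 h2.symm
      · exact hcon ⟨j, h4, i, h5, h1, h2⟩

/-- The principle for states. -/
theorem words {φ : Module.Dual ℂ T →ₗ[ℚ] ℚ} (hφ : ∀ α ∈ S.R.Φ, φ α ≠ 0) {F : Finset (Fin N)}
    (hF : ∀ q ∈ F, ∀ p, p ∉ F → c p = c q → φ (x p) ≤ φ (x q)) {v : U} (hv : St a b F v)
    (hv0 : v ≠ 0) {p q : Fin N} (hpq : c p = c q) :
    a p (b q v) ∈ Submodule.span ℂ {w | ∃ l : List (Module.Dual ℂ T),
      (∀ γ ∈ l, γ ∈ S.R.Φ ∧ φ γ < 0) ∧ l.sum = x p - x q ∧ w = S.gen v l} := by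
  obtain ⟨χ, hχ⟩ := h.st_wt hv hv0
  refine S.words hφ hχ ?_ ?_ (h.gen p q hpq) (h.abx p q)
  · intro α hα hpos
    by_contra hne
    obtain ⟨q', hq', p', hp', h1, h2⟩ := h.root_ne hα hv hne
    have h3 := hF q' hq' p' hp' h1
    rw [← h2, map_sub] at hpos
    linarith
  · intro y hy
    obtain ⟨z, hz, d, hd, h1, h2⟩ := h.dec y hy
    exact ⟨z, d, hd, h1, fun α hα => h2 _ (h.Lle (S.emem α hα)), h.st_cen hv hz h2⟩

end UW

section Lists

variable {X : Type} [AddCommGroup X] [Module ℚ X]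

theorem list_nonpos (ψ : X →ₗ[ℚ] ℚ) (l : List X) (hl : ∀ γ ∈ l, ψ γ ≤ 0) :
    ψ l.sum ≤ 0 ∧ (ψ l.sum = 0 → ∀ γ ∈ l, ψ γ = 0) := by
  induction l with
  | nil => simp
  | cons γ l ih =>
    obtain ⟨h1, h2⟩ := ih fun β hβ => hl β (List.mem_cons_of_mem _ hβ)
    have h3 := hl γ List.mem_cons_self
    rw [List.sum_cons, map_add]
    refine ⟨by linarith, fun h4 β hβ => ?_⟩
    rcases List.mem_cons.1 hβ with rfl | hβ
    · linarith
    · exact h2 (by linarith) β hβ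

theorem list_neg (ψ : X →ₗ[ℚ] ℚ) (l : List X) (hl : ∀ γ ∈ l, ψ γ < 0) (h0 : l ≠ []) :
    ψ l.sum < 0 := by
  obtain ⟨h1, h2⟩ := list_nonpos ψ l fun γ hγ => (hl γ hγ).le
  refine lt_of_le_of_ne h1 fun h3 => ?_
  obtain ⟨γ, hγ⟩ := List.exists_mem_of_ne_nil l h0
  exact (hl γ hγ).ne (h2 h3 γ hγ)

/-- Lexicographic functionals. -/
structure Lex (R : Root X) (F : Set X) (P : Submodule ℚ X) (φ' ψ φ : X →ₗ[ℚ] ℚ) : Prop where
  zero : ∀ y ∈ P, ψ y = 0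
  ne : ∀ y ∈ F, y ∉ P → ψ y ≠ 0
  ne' : ∀ y ∈ R.Φ, y ∉ P → ψ y ≠ 0
  pos : ∀ y ∈ F, 0 < ψ y → 0 < φ y
  neg : ∀ y ∈ F, ψ y < 0 → φ y < 0
  pos' : ∀ y ∈ R.Φ, 0 < ψ y → 0 < φ y
  neg' : ∀ y ∈ R.Φ, ψ y < 0 → φ y < 0
  eq : ∀ y, ψ y = 0 → φ y = φ' y

theorem exists_lex (R : Root X) {F : Set X} (hF : F.Finite) (P : Submodule ℚ X)
    (φ' : X →ₗ[ℚ] ℚ) : ∃ ψ φ, Lex R F P φ' ψ φ := by
  obtain ⟨ψ, h1, h2⟩ := avoid (hF.union R.fin) P
  obtain ⟨φ, h3, h4, h5⟩ := lex2 (hF.union R.fin) φ' ψ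
  exact ⟨ψ, φ, h1, fun y hy => h2 y (Or.inl hy), fun y hy => h2 y (Or.inr hy),
    fun y hy => h3 y (Or.inl hy), fun y hy => h4 y (Or.inl hy), fun y hy => h3 y (Or.inr hy),
    fun y hy => h4 y (Or.inr hy), h5⟩

namespace Lex

variable {R : Root X} {F : Set X} {P : Submodule ℚ X} {φ' ψ φ : X →ₗ[ℚ] ℚ}
  (h : Lex R F P φ' ψ φ)
include h

theorem gen (hφ' : ∀ α ∈ R.Φ, α ∈ P → φ' α ≠ 0) : ∀ α ∈ R.Φ, φ α ≠ 0 := by
  intro α hα
  by_cases hP : α ∈ P
  · rw [h.eq α (h.zero α hP)]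
    exact hφ' α hα hP
  · rcases lt_or_gt_of_ne (h.ne' α hα hP) with h1 | h1
    · exact (h.neg' α hα h1).ne
    · exact (h.pos' α hα h1).ne'

theorem eqP {y : X} (hy : y ∈ P) : φ y = φ' y := h.eq y (h.zero y hy)

theorem word {l : List X} (hl : ∀ γ ∈ l, γ ∈ R.Φ ∧ φ γ < 0) (hs : l.sum ∈ P) :
    ∀ γ ∈ l, γ ∈ P := by
  intro γ hγ
  have h1 : ∀ γ ∈ l, ψ γ ≤ 0 := by
    intro γ hγ
    by_contra hc
    have := h.pos' γ (hl γ hγ).1 (not_le.1 hc)
    have := (hl γ hγ).2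
    linarith
  have h2 := (list_nonpos ψ l h1).2 (h.zero _ hs) γ hγ
  by_contra hP
  exact h.ne' γ (hl γ hγ).1 hP h2

/-- comparison -/
theorem mem_of {y z : X} (hy : y ∈ F) (hz : z ∈ F) (hyz : ψ y = ψ z) (h1 : 0 ≤ φ y) (h2 : φ z < 0) :
    y ∈ P ∧ z ∈ P := by
  have h3 : ψ y = 0 := by
    rcases lt_trichotomy (ψ y) 0 with h3 | h3 | h3
    · have := h.neg y hy h3
      linarith
    · exact h3
    · have := h.pos z hz (hyz ▸ h3)
      linarith
  constructor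
  · by_contra hP
    exact h.ne y hy hP h3
  · by_contra hP
    exact h.ne z hz hP (hyz ▸ h3)

end Lex

end Lists

end Pool.Agent.R912
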