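import Pool.Agent.R912.U4

set_option autoImplicit false
set_option linter.unusedSectionVars false

/-!
# The weights on lines
-/

open Module

namespace Pool.Agent.R912

open Pool.Agent.Y102.SP

variable {U : Type} [AddCommGroup U] [Module ℂ U] [FiniteDimensional ℂ U] [Nontrivial U]
  {T : Type} [AddCommGroup T] [Module ℂ T] {L 𝔥 : Submodule ℂ (Module.End ℂ U)}
  {N k : ℕ} {a b : Fin N → Module.End ℂ U} {c : Fin N → Fin k}

/-- the differences of the weights -/
def dif (x : Fin N → Module.Dual ℂ T) : Set (Module.Dual ℂ T) := {y | ∃ i j, y = x i - x j}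

theorem dif_fin (x : Fin N → Module.Dual ℂ T) : (dif x).Finite := by
  refine (Set.finite_range fun p : Fin N × Fin N => x p.1 - x p.2).subset ?_
  rintro _ ⟨i, j, rfl⟩
  exact ⟨(i, j), rfl⟩

theorem exists_pos {X : Type} [AddCommGroup X] [Module ℚ X] {d : X} (hd : d ≠ 0) :
    ∃ φ : X →ₗ[ℚ] ℚ, 0 < φ d := by
  obtain ⟨φ, -, h⟩ := avoid (Set.finite_singleton d) (⊥ : Submodule ℚ X)
  have h1 := h d rfl (by rwa [Submodule.mem_bot])
  rcases lt_or_gt_of_ne h1 with h2 | h2
  · exact ⟨-φ, by rw [LinearMap.neg_apply]; linarith⟩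
  · exact ⟨φ, h2⟩

theorem RS.gen_rep {S : RS L T} (v : U) (n : ℕ) (γ : Module.Dual ℂ T) :
    S.gen v (List.replicate n γ) = ((S.e γ) ^ n) v := by
  unfold RS.gen
  rw [List.map_replicate, List.prod_replicate]

open Classical in
/-- the weights between two weights of the same colour -/
noncomputable def btw (c : Fin N → Fin k) (x : Fin N → Module.Dual ℂ T) (p q : Fin N) :
    Finset (Fin N) :=
  Finset.univ.filter fun i => c i = c p ∧ ∃ t : ℚ, 0 < t ∧ t < 1 ∧ x i = x q + t • (x p - x q)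

open Classical in
theorem mem_btw {x : Fin N → Module.Dual ℂ T} {p q i : Fin N} : i ∈ btw c x p q ↔
    c i = c p ∧ ∃ t : ℚ, 0 < t ∧ t < 1 ∧ x i = x q + t • (x p - x q) := by
  unfold btw
  rw [Finset.mem_filter]
  exact ⟨fun h => h.2, fun h => ⟨Finset.mem_univ _, h⟩⟩

namespace UW

variable {S : RS L T} {x : Fin N → Module.Dual ℂ T} (h : UW S 𝔥 a b c x)
include h

theorem ab_ne0 {F : Finset (Fin N)} {v : U} (hv : St a b F v) (hv0 : v ≠ 0) {p q : Fin N}
    (hq : q ∈ F) (hp : p ∉ F) : a p (b q v) ≠ 0 := by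
  intro h0
  have h1 := h.car.ext1 hv hq hp
  rw [h0, map_zero, map_zero] at h1
  exact hv0 h1.symm

/-- The weights of one colour are different. -/
theorem inj {p q : Fin N} (hc : c p = c q) (hx : x p = x q) : p = q := by
  classical
  by_contra hne
  obtain ⟨ψ, φ, hl⟩ := exists_lex S.R (dif_fin x) ⊥ 0
  have hφ := hl.gen fun α hα h0 => absurd ((Submodule.mem_bot ℚ).1 h0 ▸ hα) S.R.zero
  let F : Finset (Fin N) := Finset.univ.filter fun i => φ (x p) ≤ φ (x i) ∧ i ≠ q
  have hF : ∀ i, i ∈ F ↔ φ (x p) ≤ φ (x i) ∧ i ≠ q := fun i => by simp [F]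
  have hp : p ∈ F := (hF p).2 ⟨le_rfl, hne⟩
  have hq : q ∉ F := fun h1 => ((hF q).1 h1).2 rfl
  obtain ⟨v, hv0, hv⟩ := h.car.exists_state F
  have h1 := h.words hφ (F := F) (fun q' hq' p' hp' _ => by
    rw [hF] at hq' hp'
    by_cases h2 : p' = q
    · rw [h2, ← hx]
      exact hq'.1
    · have h3 : ¬ φ (x p) ≤ φ (x p') := fun h3 => hp' ⟨h3, h2⟩
      exact (not_le.1 h3).le.trans hq'.1) hv hv0 hc.symm
  have h2 : a q (b p v) ∈ Submodule.span ℂ {v} := by
    refine (Submodule.span_mono ?_) h1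
    rintro _ ⟨l, hl, hs, rfl⟩
    have h3 : l = [] := by
      by_contra h3
      have h4 := list_neg φ l (fun γ hγ => (hl γ hγ).2) h3
      rw [hs, ← hx, sub_self, map_zero] at h4
      exact lt_irrefl _ h4
    rw [h3, RS.gen_nil]
    rfl
  obtain ⟨s, hs⟩ := Submodule.mem_span_singleton.1 h2
  have h3 := h.car.ext1 hv hp hq
  rw [← hs, map_smul, map_smul, hv.2 q hq, map_zero, smul_zero] at h3
  exact hv0 h3.symm

/-- Adjacent weights on a line. -/
theorem adj {p q : Fin N} (hc : c p = c q) (hne : x p ≠ x q)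
    (hadj : ∀ i, c i = c p → ∀ t : ℚ, 0 < t → t < 1 → x i ≠ x q + t • (x p - x q)) :
    x p - x q ∈ S.R.Φ := by
  classical
  obtain ⟨d, hd⟩ : ∃ d, d = x p - x q := ⟨_, rfl⟩
  rw [← hd] at hadj ⊢
  have hd0 : d ≠ 0 := by rw [hd]; exact sub_ne_zero.2 hne
  obtain ⟨φ', hφ'⟩ := exists_pos hd0
  obtain ⟨ψ, φ, hl⟩ := exists_lex S.R (dif_fin x) (Submodule.span ℚ {d}) φ'
  have hφ := hl.gen fun α hα hP => by
    obtain ⟨s, rfl⟩ := Submodule.mem_span_singleton.1 hP
    rw [map_smul, smul_eq_mul]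
    refine mul_ne_zero (fun h0 => ?_) hφ'.ne'
    rw [h0, zero_smul] at hα
    exact S.R.zero hα
  have hdP : d ∈ Submodule.span ℚ {d} := Submodule.mem_span_singleton_self d
  have hφd : φ d = φ' d := hl.eqP hdP
  let F : Finset (Fin N) := Finset.univ.filter fun i => c i = c p ∧ φ (x p) ≤ φ (x i)
  have hF : ∀ i, i ∈ F ↔ c i = c p ∧ φ (x p) ≤ φ (x i) := fun i => by simp [F]
  have hp : p ∈ F := (hF p).2 ⟨rfl, le_rfl⟩
  have hq : q ∉ F := fun h1 => by
    have h2 := ((hF q).1 h1).2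
    have h3 : φ d = φ (x p) - φ (x q) := by rw [hd, map_sub]
    linarith
  obtain ⟨v, hv0, hv⟩ := h.car.exists_state F
  have h1 := h.words hφ (F := F) (fun q' hq' p' hp' h1 => by
    rw [hF] at hq' hp'
    have h3 : ¬ φ (x p) ≤ φ (x p') := fun h3 => hp' ⟨h1.trans hq'.1, h3⟩
    exact (not_le.1 h3).le.trans hq'.2) hv hv0 hc.symm
  have h2 : ∃ l : List (Module.Dual ℂ T), (∀ γ ∈ l, γ ∈ S.R.Φ ∧ φ γ < 0) ∧ l.sum = x q - x p ∧
      S.gen v l ≠ 0 := by
    by_contra hcon
    push Not at hcon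
    apply h.ab_ne0 hv hv0 hp hq
    have h3 : Submodule.span ℂ {w | ∃ l : List (Module.Dual ℂ T),
      (∀ γ ∈ l, γ ∈ S.R.Φ ∧ φ γ < 0) ∧ l.sum = x q - x p ∧ w = S.gen v l} ≤ ⊥ := by
      rw [Submodule.span_le]
      rintro _ ⟨l, h4, h5, rfl⟩
      rw [SetLike.mem_coe, Submodule.mem_bot]
      exact hcon l h4 h5
    exact (Submodule.mem_bot ℂ).1 (h3 h1)
  obtain ⟨l, h3, h4, h5⟩ := h2
  have h4' : l.sum = -d := by rw [h4, hd, neg_sub]
  have h6 := hl.word h3 (by rw [h4']; exact Submodule.neg_mem _ hdP)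
  have hl0 : l ≠ [] := by
    rintro rfl
    rw [List.sum_nil] at h4'
    exact hd0 (neg_eq_zero.1 h4'.symm)
  obtain ⟨γ0, hγ0⟩ := List.exists_mem_of_ne_nil l hl0
  obtain ⟨s0, hs0⟩ := Submodule.mem_span_singleton.1 (h6 γ0 hγ0)
  have hs00 : s0 ≠ 0 := by
    rintro rfl
    rw [zero_smul] at hs0
    exact S.R.zero (hs0 ▸ (h3 γ0 hγ0).1)
  have h7 : ∀ γ ∈ l, γ = γ0 := by
    intro γ hγ
    obtain ⟨s, hs⟩ := Submodule.mem_span_singleton.1 (h6 γ hγ)
    have h8 : γ = (s / s0) • γ0 := by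
      rw [← hs, ← hs0, smul_smul, div_mul_cancel₀ _ hs00]
    rcases S.R.red γ0 (h3 γ0 hγ0).1 (s / s0) (h8 ▸ (h3 γ hγ).1) with h9 | h9
    · rw [h9, one_smul] at h8
      exact h8
    · exfalso
      rw [h9, neg_one_smul] at h8
      have := (h3 γ hγ).2
      have := (h3 γ0 hγ0).2
      rw [h8, map_neg] at *
      linarith
  have h8 : l = List.replicate l.length γ0 := List.eq_replicate_iff.2 ⟨rfl, h7⟩
  obtain ⟨n, hn⟩ : ∃ n, l.length = n + 1 := Nat.exists_eq_succ_of_ne_zero fun h9 =>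
    hl0 (List.length_eq_zero_iff.1 h9)
  rw [hn] at h8
  rw [h8, RS.gen_rep, pow_succ, Module.End.mul_apply] at h5
  have h9 : S.e γ0 v ≠ 0 := fun h9 => h5 (by rw [h9, map_zero])
  have h10 : ((n : ℚ) + 1) • γ0 = -d := by
    rw [← h4', h8, List.sum_replicate, ← Nat.cast_smul_eq_nsmul ℚ]
    push_cast
    rfl
  have hn1 : ((n : ℚ) + 1) ≠ 0 := by positivity
  have h11 : γ0 = (-(1 / ((n : ℚ) + 1))) • d := by
    have h12 : γ0 = (1 / ((n : ℚ) + 1)) • (((n : ℚ) + 1) • γ0) := by
      rw [smul_smul, one_div, inv_mul_cancel₀ hn1, one_smul]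
    rw [h12, h10, smul_neg, neg_smul]
  obtain ⟨q1, hq1, p1, hp1, h12, h13⟩ := h.root_ne (h3 γ0 hγ0).1 hv h9
  rw [hF] at hq1 hp1
  have h14 : c p1 = c p := h12.trans hq1.1
  have h15 : φ (x p1) < φ (x p) := not_le.1 fun h15 => hp1 ⟨h14, h15⟩
  have h16 : ψ γ0 = 0 := hl.zero _ (h6 γ0 hγ0)
  obtain ⟨h17, h18⟩ := hl.mem_of (y := x q1 - x p) (z := x p1 - x p) ⟨q1, p, rfl⟩ ⟨p1, p, rfl⟩ (by
    have h17 : x p1 - x p = (x q1 - x p) + γ0 := by rw [← h13]; abel
    rw [h17, map_add, h16, add_zero]) (by rw [map_sub]; linarith [hq1.2]) (by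
      rw [map_sub]; linarith)
  obtain ⟨s, hs⟩ := Submodule.mem_span_singleton.1 h17
  have h19 : 0 ≤ s := by
    by_contra h19
    have h20 : φ (x q1 - x p) = s * φ' d := by
      rw [← hs, map_smul, smul_eq_mul, hφd]
    have h21 : s * φ' d < 0 := mul_neg_of_neg_of_pos (not_le.1 h19) hφ'
    rw [map_sub] at h20
    linarith [hq1.2]
  have h20 : x p1 - x p = (s - 1 / ((n : ℚ) + 1)) • d := by
    have h21 : x p1 - x p = (x q1 - x p) + γ0 := by rw [← h13]; abel
    rw [h21, ← hs, h11, ← add_smul]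
    congr 1
    ring
  have h21 : s < 1 / ((n : ℚ) + 1) := by
    by_contra h21
    have h22 : φ (x p1 - x p) = (s - 1 / ((n : ℚ) + 1)) * φ' d := by
      rw [h20, map_smul, smul_eq_mul, hφd]
    have h23 : 0 ≤ (s - 1 / ((n : ℚ) + 1)) * φ' d :=
      mul_nonneg (sub_nonneg.2 (not_lt.1 h21)) hφ'.le
    rw [map_sub] at h22
    linarith
  rcases Nat.eq_zero_or_pos n with hn0 | hn0
  · have h22 : d = -γ0 := by
      rw [h11, hn0]
      norm_num
    rw [h22]
    exact S.R.neg _ (h3 γ0 hγ0).1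
  · exfalso
    have h23 : (1 : ℚ) ≤ n := by exact_mod_cast hn0
    have h24 : 1 / ((n : ℚ) + 1) < 1 := by
      rw [div_lt_one (by positivity)]
      linarith
    refine hadj p1 h14 (1 + (s - 1 / ((n : ℚ) + 1))) (by linarith) (by linarith) ?_
    rw [add_smul, one_smul, ← h20, hd]
    abel

/-- The weights on a line are an arithmetic progression with difference a root. -/
theorem line : ∀ (m : ℕ) {p q : Fin N}, c p = c q → x p ≠ x q → (btw c x p q).card ≤ m →
    ∃ β ∈ S.R.Φ, ∃ n : ℕ, 1 ≤ n ∧ x p = x q + (n : ℚ) • β ∧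
      ∀ m ≤ n, ∃ i, c i = c p ∧ x i = x q + (m : ℚ) • β := by
  classical
  intro m
  induction m with
  | zero =>
    intro p q hc hne hm
    have h1 := Finset.card_eq_zero.1 (Nat.le_zero.1 hm)
    have h2 := h.adj hc hne fun i hi t ht0 ht1 hx => by
      have h3 : i ∈ btw c x p q := mem_btw.2 ⟨hi, t, ht0, ht1, hx⟩
      rw [h1] at h3
      exact Finset.notMem_empty i h3
    refine ⟨_, h2, 1, le_rfl, by rw [Nat.cast_one, one_smul]; abel, fun m hm => ?_⟩
    rcases Nat.le_one_iff_eq_zero_or_eq_one.1 hm with rfl | rfl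
    · exact ⟨q, hc.symm, by rw [Nat.cast_zero, zero_smul, add_zero]⟩
    · exact ⟨p, rfl, by rw [Nat.cast_one, one_smul]; abel⟩
  | succ m ih =>
    intro p q hc hne hm
    by_cases h1 : btw c x p q = ∅
    · exact ih hc hne (by rw [h1, Finset.card_empty]; exact Nat.zero_le m)
    · obtain ⟨i, hi⟩ := Finset.nonempty_iff_ne_empty.2 h1
      obtain ⟨d, hd⟩ : ∃ d, d = x p - x q := ⟨_, rfl⟩
      have hd0 : d ≠ 0 := by rw [hd]; exact sub_ne_zero.2 hne
      obtain ⟨hci, t, ht0, ht1, hxi⟩ := mem_btw.1 hi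
      rw [← hd] at hxi
      have hiq : x i - x q = t • d := by rw [hxi]; abel
      have hpi : x p - x i = (1 - t) • d := by
        rw [hxi, sub_smul, one_smul, hd]
        abel
      have hne1 : x i ≠ x q := by
        intro h2
        rw [h2, sub_self] at hiq
        exact (smul_ne_zero ht0.ne' hd0) hiq.symm
      have hne2 : x p ≠ x i := by
        intro h2
        rw [h2, sub_self] at hpi
        exact (smul_ne_zero (by linarith : (1 - t) ≠ 0) hd0) hpi.symm
      have hlt : ∀ G : Finset (Fin N), G ⊆ btw c x p q → i ∉ G → G.card ≤ m := by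
        intro G hG hiG
        have h2 : G.card < (btw c x p q).card :=
          Finset.card_lt_card ((Finset.ssubset_iff_of_subset hG).2 ⟨i, hi, hiG⟩)
        omega
      obtain ⟨β, hβ, n1, hn1, h2, h3⟩ := ih (p := i) (q := q) (hci.trans hc) hne1 (hlt _ (by
        intro j hj
        obtain ⟨hj1, s, hs0, hs1, hxj⟩ := mem_btw.1 hj
        refine mem_btw.2 ⟨hj1.trans hci, s * t, by positivity, by nlinarith, ?_⟩
        rw [hxj, hiq, smul_smul, hd]) (by
        intro hj
        obtain ⟨hj1, s, hs0, hs1, hxj⟩ := mem_btw.1 hj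
        rw [hiq] at hxj
        have h4 : t • d = s • (t • d) := by
          have h5 : x i - x q = s • (t • d) := by
            nth_rw 1 [hxj]
            rw [add_sub_cancel_left]
          rw [← h5, hiq]
        have h5 : (1 - s) • (t • d) = 0 := by rw [sub_smul, one_smul, ← h4, sub_self]
        rcases smul_eq_zero.1 h5 with h6 | h6
        · linarith
        · exact smul_ne_zero ht0.ne' hd0 h6))
      obtain ⟨β', hβ', n2, hn2, h4, h5⟩ := ih (p := p) (q := i) hci.symm hne2 (hlt _ (by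
        intro j hj
        obtain ⟨hj1, s, hs0, hs1, hxj⟩ := mem_btw.1 hj
        refine mem_btw.2 ⟨hj1, t + s * (1 - t), by nlinarith, by nlinarith, ?_⟩
        rw [hxj, hpi, smul_smul, add_smul, ← hd, ← hiq]
        abel) (by
        intro hj
        obtain ⟨hj1, s, hs0, hs1, hxj⟩ := mem_btw.1 hj
        rw [hpi] at hxj
        have h4 : s • ((1 - t) • d) = 0 := by
          have h6 : x i - x i = s • ((1 - t) • d) := by
            nth_rw 1 [hxj]
            rw [add_sub_cancel_left]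
          rw [← h6, sub_self]
        rcases smul_eq_zero.1 h4 with h6 | h6
        · linarith
        · exact smul_ne_zero (by linarith : (1 - t) ≠ 0) hd0 h6))
      have e1 : (n1 : ℚ) • β = t • d := by rw [← hiq, h2]; abel
      have e2 : (n2 : ℚ) • β' = (1 - t) • d := by rw [← hpi, h4]; abel
      have n10 : (0 : ℚ) < n1 := by exact_mod_cast hn1
      have n20 : (0 : ℚ) < n2 := by exact_mod_cast hn2
      have e3 : β' = ((1 - t) / n2 * (n1 / t)) • β := by
        have e4 : β' = (1 / (n2 : ℚ)) • ((n2 : ℚ) • β') := by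
          rw [smul_smul, one_div, inv_mul_cancel₀ n20.ne', one_smul]
        have e5 : d = (1 / t) • (t • d) := by
          rw [smul_smul, one_div, inv_mul_cancel₀ ht0.ne', one_smul]
        rw [e4, e2, e5, ← e1, smul_smul, smul_smul, smul_smul]
        congr 1
        field_simp
      have e6 : (0 : ℚ) < (1 - t) / n2 * (n1 / t) := by
        have : (0 : ℚ) < 1 - t := by linarith
        positivity
      have e7 : β' = β := by
        rcases S.R.red β hβ _ (e3 ▸ hβ') with e7 | e7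
        · rw [e7, one_smul] at e3
          exact e3
        · linarith
      subst e7
      refine ⟨β', hβ', n1 + n2, by omega, ?_, fun m hm => ?_⟩
      · rw [h4, h2, Nat.cast_add, add_smul]
        abel
      · rcases le_total m n1 with hm1 | hm1
        · obtain ⟨j, hj, hxj⟩ := h3 m hm1
          exact ⟨j, hj.trans hci, hxj⟩
        · obtain ⟨j, hj, hxj⟩ := h5 (m - n1) (by omega)
          refine ⟨j, hj, ?_⟩
          rw [hxj, h2, add_assoc, ← add_smul, Nat.cast_sub hm1]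
          congr 2
          ring

end UW

end Pool.Agent.R912
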