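import Pool.Agent.R912.U7

set_option autoImplicit false
set_option linter.unusedSectionVars false

/-!
# All differences of weights are different
-/

open Module

namespace Pool.Agent.R912

open Pool.Agent.Y102.SP

section Arith

variable {X : Type} [AddCommGroup X] [Module ℚ X] {R : Root X}

/-- Roots in the plane of two orthogonal roots whose sum and difference are roots. -/
theorem plane_int (hcor : Cor R) {β ε : X} (hβ : β ∈ R.Φ) (hε : ε ∈ R.Φ) (hs : ε + β ∈ R.Φ)
    (hd : ε - β ∈ R.Φ) (h1 : R.pr β ε = 0) (h2 : R.pr ε β = 0) {γ : X} (hγ : γ ∈ R.Φ)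
    (hP : γ ∈ Submodule.span ℚ {β, ε}) : R.pr ε γ ≠ -1 := by
  intro hC
  obtain ⟨d, e, hde⟩ := Submodule.mem_span_pair.1 hP
  have hβ0 : β ≠ 0 := fun h0 => R.zero (h0 ▸ hβ)
  have oβε : rB R β ε = 0 := by
    have := rB_root hcor hε β
    rw [h2, zero_mul] at this
    linarith
  have oεβ : rB R ε β = 0 := by rw [rB_symm]; exact oβε
  have bpos := rB_pos hβ
  have epos := rB_pos hε
  have spos := rB_pos hs
  obtain ⟨n1, hn1⟩ := R.int _ hs _ hβ
  obtain ⟨n2, hn2⟩ := R.int _ hs _ hε
  have s1 : 2 * rB R β β = n1 * (rB R ε ε + rB R β β) := by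
    have := rB_root hcor hs β
    rw [hn1, rB_add', oβε, rB_add, rB_add', rB_add', oβε, oεβ] at this
    linarith
  have s2 : 2 * rB R ε ε = n2 * (rB R ε ε + rB R β β) := by
    have := rB_root hcor hs ε
    rw [hn2, rB_add', oεβ, rB_add, rB_add', rB_add', oβε, oεβ] at this
    linarith
  have p1 : 0 < n1 := by
    by_contra h3
    have h4 : (n1 : ℚ) ≤ 0 := by exact_mod_cast not_lt.1 h3
    have := mul_nonpos_of_nonpos_of_nonneg h4 (by linarith : 0 ≤ rB R ε ε + rB R β β)
    linarith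
  have p2 : 0 < n2 := by
    by_contra h3
    have h4 : (n2 : ℚ) ≤ 0 := by exact_mod_cast not_lt.1 h3
    have := mul_nonpos_of_nonpos_of_nonneg h4 (by linarith : 0 ≤ rB R ε ε + rB R β β)
    linarith
  have s3 : (n1 + n2 : ℚ) * (rB R ε ε + rB R β β) = 2 * (rB R ε ε + rB R β β) := by linarith
  have s4 : (n1 + n2 : ℚ) = 2 := mul_right_cancel₀ (by linarith) s3
  have s5 : n1 + n2 = 2 := by exact_mod_cast s4
  have s6 : n1 = 1 := by omega
  have s7 : rB R ε ε = rB R β β := by
    rw [s6, Int.cast_one] at s1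
    linarith
  -- the root γ
  have c1 : R.pr ε γ = 2 * e := by
    rw [← hde, map_add, map_smul, map_smul, h2, R.two ε hε, smul_eq_mul, smul_eq_mul]
    ring
  have c2 : R.pr β γ = 2 * d := by
    rw [← hde, map_add, map_smul, map_smul, h1, R.two β hβ, smul_eq_mul, smul_eq_mul]
    ring
  obtain ⟨D, hD⟩ := R.int _ hβ _ hγ
  obtain ⟨m, hm⟩ := R.int _ hγ _ hβ
  obtain ⟨n, hn⟩ := R.int _ hγ _ hε
  have he : e = -1 / 2 := by linarith
  have hd' : d = D / 2 := by linarith
  have gg : rB R γ γ = (d * d + e * e) * rB R β β := by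
    rw [← hde, rB_add, rB_add', rB_add', rB_smul, rB_smul, rB_smul', rB_smul', rB_smul, rB_smul,
      rB_smul', rB_smul', oβε, oεβ, s7]
    ring
  have g1 : 2 * (e * rB R β β) = n * ((d * d + e * e) * rB R β β) := by
    have := rB_root hcor hγ ε
    rw [hn, gg] at this
    rw [← this, ← hde, rB_add', rB_smul', rB_smul', oεβ, s7]
    ring
  have g2 : 2 * e = n * (d * d + e * e) := by
    have : (2 * e) * rB R β β = (n * (d * d + e * e)) * rB R β β := by linarith
    exact mul_right_cancel₀ bpos.ne' this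
  rw [he, hd'] at g2
  have g3 : n * (D * D + 1) = -4 := by
    have : (n : ℚ) * (D * D + 1) = -4 := by linarith
    exact_mod_cast this
  -- excluded cases
  have hD1 : D ≠ 1 := by
    rintro rfl
    have h3 : γ = (-1 / 2 : ℚ) • (ε - β) := by
      rw [← hde, he, hd', smul_sub, sub_eq_add_neg, ← neg_smul, add_comm]
      norm_num
    rcases R.red _ hd _ (h3 ▸ hγ) with h4 | h4 <;> norm_num at h4
  have hD2 : D ≠ -1 := by
    rintro rfl
    have h3 : γ = (-1 / 2 : ℚ) • (ε + β) := by
      rw [← hde, he, hd', smul_add, add_comm]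
      norm_num
    rcases R.red _ hs _ (h3 ▸ hγ) with h4 | h4 <;> norm_num at h4
  have hD3 : D ≠ 0 := by
    rintro rfl
    have h3 : γ = (-1 / 2 : ℚ) • ε := by
      rw [← hde, he, hd']
      norm_num
    rcases R.red _ hε _ (h3 ▸ hγ) with h4 | h4 <;> norm_num at h4
  have h3 : n < 0 := by nlinarith [mul_self_nonneg D]
  have h4 : -4 ≤ n := by nlinarith [mul_self_nonneg D]
  have h5 : D * D ≤ 3 := by nlinarith [mul_self_nonneg D]
  have h6 : D ≤ 1 := by nlinarith
  have h7 : -1 ≤ D := by nlinarith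
  have h8 : D = 1 ∨ D = 0 ∨ D = -1 := by omega
  rcases h8 with h8 | h8 | h8
  · exact hD1 h8
  · exact hD3 h8
  · exact hD2 h8

end Arith

variable {U : Type} [AddCommGroup U] [Module ℂ U] [FiniteDimensional ℂ U] [Nontrivial U]
  {T : Type} [AddCommGroup T] [Module ℂ T] {L 𝔥 : Submodule ℂ (Module.End ℂ U)}
  {N k : ℕ} {a b : Fin N → Module.End ℂ U} {c : Fin N → Fin k}

namespace UW

variable {S : RS L T} {x : Fin N → Module.Dual ℂ T} (h : UW S 𝔥 a b c x)
  (hev : ∀ i, Even (Finset.univ.filter fun j => c j = c i).card)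
include h hev

theorem no3 {β : Module.Dual ℂ T} (hβ : β ∈ S.R.Φ) {i0 i1 i2 : Fin N} (c0 : c i0 = c i1)
    (c2 : c i2 = c i1) (h0 : x i0 = x i1 + β) (h2 : x i2 = x i1 - β) : False :=
  Nat.not_even_iff_odd.2 (h.mid_odd hβ c0 c2 h0 h2) (hev i1)

/-- The differences are roots. -/
theorem sub_mem {p q : Fin N} (hc : c p = c q) (hpq : p ≠ q) : x p - x q ∈ S.R.Φ := by
  have hne : x p ≠ x q := fun h0 => hpq (h.inj hc h0)
  obtain ⟨β, hβ, h1 | ⟨h1, i, hi, h2⟩⟩ := h.line' hc hne
  · rw [h1, add_sub_cancel_left]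
    exact hβ
  · exfalso
    refine h.no3 hev hβ (i0 := p) (i1 := i) (i2 := q) hi.symm (hc.symm.trans hi.symm) ?_ ?_
    · rw [h1, h2, two_smul, add_assoc]
    · rw [h2, add_sub_cancel_right]

/-- Positions on the line of two weights. -/
theorem pos {β : Module.Dual ℂ T} (hβ : β ∈ S.R.Φ) {p q j : Fin N} (hc : c p = c q)
    (hj : c j = c q) (hx : x p = x q + β) {m : ℚ} (hm : x j = x q + m • β) : j = p ∨ j = q := by
  by_cases hjq : j = q
  · exact Or.inr hjq
  left
  have h1 := h.sub_mem hev hj hjq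
  rw [hm, add_sub_cancel_left] at h1
  rcases S.R.red β hβ m h1 with h2 | h2
  · refine h.inj (hj.trans hc.symm) ?_
    rw [hm, h2, one_smul, hx]
  · exfalso
    refine h.no3 hev hβ (i0 := p) (i1 := q) (i2 := j) hc hj hx ?_
    rw [hm, h2, neg_one_smul, sub_eq_add_neg]

theorem pr_one {β : Module.Dual ℂ T} (hβ : β ∈ S.R.Φ) {p q : Fin N} (hc : c p = c q)
    (hx : x p = x q + β) : S.R.pr β (x p) = 1 := by
  have hβ0 : β ≠ 0 := fun h0 => S.R.zero (h0 ▸ hβ)
  obtain ⟨j, hj, hxj⟩ := h.refl hβ p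
  obtain ⟨j', hj', hxj'⟩ := h.refl hβ q
  have e0 : S.R.pr β (x p) = S.R.pr β (x q) + 2 := by rw [hx, map_add, S.R.two β hβ]
  have e1 : x j = x q + (1 - S.R.pr β (x p)) • β := by
    rw [hxj, sub_smul, one_smul]
    nth_rw 1 [hx]
    abel
  have e2 : x j' = x q + (2 - S.R.pr β (x p)) • β := by
    rw [hxj', e0, sub_eq_add_neg, ← neg_smul]
    congr 2
    ring
  have key : ∀ {s t : ℚ}, s • β = t • β → s = t := by
    intro s t hst
    rw [← sub_eq_zero, ← sub_smul] at hst
    exact sub_eq_zero.1 ((smul_eq_zero.1 hst).resolve_right hβ0)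
  have f1 : 1 - S.R.pr β (x p) = 1 ∨ 1 - S.R.pr β (x p) = 0 := by
    rcases h.pos hev hβ hc (hj.trans hc) hx e1 with h1 | h1
    · left
      rw [h1] at e1
      refine key ?_
      rw [one_smul]
      exact (add_left_cancel (hx.symm.trans e1)).symm
    · right
      rw [h1] at e1
      refine key ?_
      rw [zero_smul]
      have h2 : x q + 0 = x q + (1 - S.R.pr β (x p)) • β := by rw [add_zero]; exact e1
      exact (add_left_cancel h2).symm
  have f2 : 2 - S.R.pr β (x p) = 1 ∨ 2 - S.R.pr β (x p) = 0 := by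
    rcases h.pos hev hβ hc hj' hx e2 with h1 | h1
    · left
      rw [h1] at e2
      refine key ?_
      rw [one_smul]
      exact (add_left_cancel (hx.symm.trans e2)).symm
    · right
      rw [h1] at e2
      refine key ?_
      rw [zero_smul]
      have h2 : x q + 0 = x q + (2 - S.R.pr β (x p)) • β := by rw [add_zero]; exact e2
      exact (add_left_cancel h2).symm
  rcases f1 with f1 | f1 <;> rcases f2 with f2 | f2 <;> linarith

end UW

end Pool.Agent.R912
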